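import Pool.Statements.S00750
import Pool.Agent.V5helper35.VRC.NoRetract
import Pool.Agent.Helper694.CS.J_cyciso

set_option autoImplicit false
open Pool Pool.MP_0fe979_al

namespace Pool.Agent.S00750

open HNNExtension Pool.CS Pool.Agent.V5helper35.VRC Pool.Agent.V5helper35.VRC.W
  Pool.Agent.Helper270.Tree Pool.Agent.Helper270.HNN

/-- The group: the index two subgroup of parity zero of the HNN extension
`⟨a, b, σ, t | [a, b], σ², σ a σ⁻¹ = b, t b t⁻¹ = a³ b⟩`.  It is the fundamental group of the graph of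
groups with one vertex group `ℤ² = ⟨a, b⟩` and two loops `t b t⁻¹ = a³ b`, `u a u⁻¹ = a b³`. -/
abbrev GG : Type := ↥(pty.ker)

/-- The involution. -/
noncomputable def sg : E ℤ := of ⟨0, 0, true⟩

theorem pty_sg : pty sg = Multiplicative.ofAdd 1 := pty_of _

theorem two_cases : ∀ x : Multiplicative (ZMod 2), x = 1 ∨ x = Multiplicative.ofAdd 1 := by
  decide

theorem smul_def' (g : GG) (v : Vert (phi ℤ)) : g • v = (g : E ℤ) • v := rfl

theorem stab_form {k : E ℤ} {g : GG} (h : g • (vt k : Vert (phi ℤ)) = vt k) :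
    ∃ x y : ℤ, (g : E ℤ) = k * of (tr x y) * k⁻¹ := by
  rw [smul_def', smul_vt, eq_comm, vt_eq_iff] at h
  obtain ⟨w, hw⟩ := h
  have h1 : (g : E ℤ) = k * of w * k⁻¹ := by rw [hw]; group
  have h2 : pty (g : E ℤ) = 1 := g.2
  rw [h1, map_mul, map_mul, map_inv, mul_comm (pty k), mul_inv_cancel_right, pty_of_eq_one] at h2
  obtain ⟨x, y, s⟩ := w
  simp only at h2
  subst h2
  exact ⟨x, y, h1⟩

theorem pty_conj (k : E ℤ) (x y : ℤ) : pty (k * of (tr x y) * k⁻¹) = 1 := by
  rw [map_mul, map_mul, map_inv, mul_comm (pty k), mul_inv_cancel_right, pty_of_eq_one]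
  rfl

theorem vertex_group (v : Vert (phi ℤ)) : ∃ n : ℕ,
    Nonempty (↥(MulAction.stabilizer GG v) ≃* Multiplicative (Fin n → ℤ)) := by
  obtain ⟨k, rfl⟩ := exists_vt v
  refine ⟨2, ⟨MulEquiv.symm (MulEquiv.ofBijective
    (MonoidHom.mk' (fun m : Multiplicative (Fin 2 → ℤ) =>
      (⟨⟨k * of (tr (m.toAdd 0) (m.toAdd 1)) * k⁻¹, pty_conj k _ _⟩, ?_⟩ :
        ↥(MulAction.stabilizer GG (vt k : Vert (phi ℤ))))) ?_) ⟨?_, ?_⟩)⟩⟩
  · rw [MulAction.mem_stabilizer_iff, smul_def', smul_vt, inv_mul_cancel_right, vt_mul_of]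
  · intro m m'
    apply Subtype.ext
    apply Subtype.ext
    change k * of (W.tr _ _) * k⁻¹ = (k * of (W.tr _ _) * k⁻¹) * (k * of (W.tr _ _) * k⁻¹)
    rw [toAdd_mul, Pi.add_apply, Pi.add_apply, ← tr_mul, map_mul]
    group
  · intro m m' h
    have h1 : k * of (tr (m.toAdd 0) (m.toAdd 1)) * k⁻¹ =
        k * of (tr (m'.toAdd 0) (m'.toAdd 1)) * k⁻¹ :=
      congrArg (fun z : ↥(MulAction.stabilizer GG (vt k : Vert (phi ℤ))) => ((z : GG) : E ℤ)) h
    have h2 := of_injective (φ := phi ℤ) (mul_left_cancel (mul_right_cancel h1))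
    rw [tr_inj] at h2
    apply Multiplicative.toAdd.injective
    funext i
    fin_cases i
    · exact h2.1
    · exact h2.2
  · rintro ⟨g, hg⟩
    obtain ⟨x, y, h⟩ := stab_form hg
    refine ⟨Multiplicative.ofAdd ![x, y], ?_⟩
    apply Subtype.ext
    apply Subtype.ext
    exact h.symm

theorem edge_aux (k : E ℤ) : IsCyclic ↥(MulAction.stabilizer GG (vt k : Vert (phi ℤ)) ⊓
    MulAction.stabilizer GG (vt (k * t) : Vert (phi ℤ))) := by
  let S := MulAction.stabilizer GG (vt k : Vert (phi ℤ)) ⊓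
    MulAction.stabilizer GG (vt (k * t) : Vert (phi ℤ))
  let f : S →* E ℤ := (MulAut.conj k⁻¹).toMonoidHom.comp (pty.ker.subtype.comp S.subtype)
  have hf : ∀ s : S, f s = k⁻¹ * ((s : GG) : E ℤ) * k := by
    intro s
    change k⁻¹ * ((s : GG) : E ℤ) * (k⁻¹)⁻¹ = _
    rw [inv_inv]
  have hmem : ∀ s : S, f s ∈ Subgroup.zpowers (of (vv : W ℤ) : E ℤ) := by
    intro s
    obtain ⟨x, y, h⟩ := stab_form (MulAction.mem_stabilizer_iff.mp s.2.1)
    have h2 := MulAction.mem_stabilizer_iff.mp s.2.2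
    rw [smul_def', smul_vt, eq_comm, vt_eq_iff] at h2
    obtain ⟨w, hw⟩ := h2
    have h3 : (t : E ℤ)⁻¹ * of (tr x y) * t = of w := by
      have : (of w : E ℤ) = (k * t)⁻¹ * (((s : GG) : E ℤ) * (k * t)) := by rw [← hw]; group
      rw [this, h]; group
    have h4 := (conj_t (φ := phi ℤ) (tr x y)).mp ⟨w, h3⟩
    obtain ⟨j, hj⟩ := h4
    refine ⟨j, ?_⟩
    change (of (vv : W ℤ) : E ℤ) ^ j = f s
    rw [← map_zpow, hf, h]
    have hj' : (vv : W ℤ) ^ j = tr x y := hj
    rw [hj']; group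
  have hinj : Function.Injective (f.codRestrict (Subgroup.zpowers (of (vv : W ℤ) : E ℤ)) hmem) := by
    intro s s' h
    have h1 : f s = f s' := congrArg Subtype.val h
    rw [hf, hf] at h1
    exact Subtype.ext (Subtype.ext (mul_left_cancel (mul_right_cancel h1)))
  exact isCyclic_of_injective _ hinj

theorem orderOf_aux : ¬ IsOfFinOrder (⟨of (tr 1 0), pty_of_eq_one.mpr rfl⟩ : GG) := by
  rw [isOfFinOrder_iff_pow_eq_one]
  rintro ⟨n, hn, h⟩
  have h1 := congrArg Subtype.val h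
  change (of (tr 1 0) : E ℤ) ^ n = 1 at h1
  rw [← map_pow, ← map_one (of : W ℤ →* E ℤ)] at h1
  have h2 := of_injective (φ := phi ℤ) h1
  rw [tr_pow, ← tr_zero, tr_inj] at h2
  have := h2.1
  simp only [mul_one] at this
  have : n = 0 := by exact_mod_cast this
  omega

/-- The negation of the preceding statement: Let G act on a tree without inversions, with finitely many vertex and edge orbits, free abelian finite-rank vertex stabilizers and cyclic edge stabilizers. If G is cyclic subgroup separable, is every cyclic subgroup of G a virtual retract? -/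
theorem result :
    ¬ (∀ (G : Type) [Group G] (V : Type) (T : SimpleGraph V) [MulAction G V],
    T.IsTree →
    (∀ (g : G) (u v : V), T.Adj u v → T.Adj (g • u) (g • v)) →
    (∀ (g : G) (u v : V), T.Adj u v → ¬ (g • u = v ∧ g • v = u)) →
    (∃ S : Finset V, ∀ v : V, ∃ g : G, g • v ∈ S) →
    (∃ E : Finset (V × V), ∀ u v : V, T.Adj u v → ∃ g : G, (g • u, g • v) ∈ E) →
    (∀ v : V, ∃ n : ℕ, Nonempty (↥(MulAction.stabilizer G v) ≃* Multiplicative (Fin n → ℤ))) →
    (∀ u v : V, T.Adj u v →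
      IsCyclic ↥(MulAction.stabilizer G u ⊓ MulAction.stabilizer G v)) →
    (∀ g h : G, h ∉ Subgroup.zpowers g →
      ∃ K : Subgroup G, K.FiniteIndex ∧ Subgroup.zpowers g ≤ K ∧ h ∉ K) →
    ∀ g : G, ∃ K : Subgroup G, K.FiniteIndex ∧ Subgroup.zpowers g ≤ K ∧
      ∃ r : ↥K →* G, (∀ k : ↥K, r k ∈ Subgroup.zpowers g) ∧
        (∀ k : ↥K, (k : G) ∈ Subgroup.zpowers g → r k = (k : G))) := by
  classical
  intro H
  have hpty : ∀ k : E ℤ, ∃ g : GG, (g : E ℤ) = k⁻¹ ∨ (g : E ℤ) = sg * k⁻¹ := by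
    intro k
    rcases two_cases (pty k) with h | h
    · exact ⟨⟨k⁻¹, by rw [MonoidHom.mem_ker, map_inv, h, inv_one]⟩, Or.inl rfl⟩
    · exact ⟨⟨sg * k⁻¹, by rw [MonoidHom.mem_ker, map_mul, map_inv, h, pty_sg, mul_inv_cancel]⟩,
        Or.inr rfl⟩
  have hsg : (vt sg : Vert (phi ℤ)) = vt 1 := by
    have := vt_mul_of (φ := phi ℤ) 1 ⟨0, 0, true⟩
    rwa [one_mul] at this
  obtain ⟨K, hK, hle, r, hr1, hr2⟩ := H GG (Vert (phi ℤ)) (graph (phi ℤ))
    isTree (fun g u v h => treeAct.adj g u v h) (fun g u v h => treeAct.noInv g u v h)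
    (by
      refine ⟨{vt 1}, fun v => ?_⟩
      obtain ⟨k, rfl⟩ := exists_vt v
      obtain ⟨g, hg | hg⟩ := hpty k
      · refine ⟨g, ?_⟩
        rw [Finset.mem_singleton, smul_def', hg, smul_vt, inv_mul_cancel]
      · refine ⟨g, ?_⟩
        rw [Finset.mem_singleton, smul_def', hg, smul_vt, inv_mul_cancel_right, hsg])
    (by
      refine ⟨{(vt 1, vt t), (vt 1, vt (sg * t)), (vt t, vt 1), (vt (sg * t), vt 1)}, ?_⟩
      intro u v huv
      obtain ⟨k, ⟨rfl, rfl⟩ | ⟨rfl, rfl⟩⟩ := adj_iff.mp huv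
      · obtain ⟨g, hg | hg⟩ := hpty k
        · refine ⟨g, ?_⟩
          rw [smul_def', smul_def', hg, smul_vt, smul_vt, inv_mul_cancel, inv_mul_cancel_left]
          simp
        · refine ⟨g, ?_⟩
          rw [smul_def', smul_def', hg, smul_vt, smul_vt, inv_mul_cancel_right, mul_assoc,
            inv_mul_cancel_left, hsg]
          simp
      · obtain ⟨g, hg | hg⟩ := hpty k
        · refine ⟨g, ?_⟩
          rw [smul_def', smul_def', hg, smul_vt, smul_vt, inv_mul_cancel, inv_mul_cancel_left]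
          simp
        · refine ⟨g, ?_⟩
          rw [smul_def', smul_def', hg, smul_vt, smul_vt, inv_mul_cancel_right, mul_assoc,
            inv_mul_cancel_left, hsg]
          simp)
    vertex_group
    (by
      intro u v huv
      obtain ⟨k, ⟨rfl, rfl⟩ | ⟨rfl, rfl⟩⟩ := adj_iff.mp huv
      · exact edge_aux k
      · rw [inf_comm]; exact edge_aux k)
    (by
      intro g h hh
      have h1 : (h : E ℤ) ∉ Subgroup.zpowers (g : E ℤ) := by
        rintro ⟨j, hj⟩
        exact hh ⟨j, Subtype.ext hj⟩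
      obtain ⟨q, hq⟩ := sep_all (g : E ℤ) g.2 _ h1
      let f : GG →* q.Q := q.φ.comp pty.ker.subtype
      have hker : f.ker.FiniteIndex := inferInstance
      have hle : f.ker ≤ (Subgroup.zpowers (f g)).comap f := by
        intro x hx
        rw [Subgroup.mem_comap, MonoidHom.mem_ker.mp hx]
        exact one_mem _
      refine ⟨(Subgroup.zpowers (f g)).comap f, Subgroup.finiteIndex_of_le hle, ?_, hq⟩
      rw [Subgroup.zpowers_le]
      exact Subgroup.mem_zpowers _)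
    ⟨of (tr 1 0), pty_of_eq_one.mpr rfl⟩
  -- the homomorphism to the integers
  let a : GG := ⟨of (tr 1 0), pty_of_eq_one.mpr rfl⟩
  let b : GG := ⟨of (tr 0 1), pty_of_eq_one.mpr rfl⟩
  let t' : GG := ⟨t, pty_t⟩
  let u' : GG := ⟨sg * t * sg⁻¹, by
    rw [MonoidHom.mem_ker, map_mul, map_mul, map_inv, pty_t, mul_one, mul_inv_cancel]⟩
  obtain ⟨e, he⟩ := N_cyciso.cyciso_aux a orderOf_aux
  let ψ : K →* Multiplicative ℤ := e.symm.toMonoidHom.comp (r.codRestrict (Subgroup.zpowers a) hr1)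
  have haK : a ∈ K := hle (Subgroup.mem_zpowers a)
  have hψ : ψ ⟨a, haK⟩ = Multiplicative.ofAdd 1 := by
    change e.symm _ = _
    rw [MulEquiv.symm_apply_eq, he]
    apply Subtype.ext
    exact hr2 ⟨a, haK⟩ (Subgroup.mem_zpowers a)
  have key : (t : E ℤ) * of (tr 0 1) * t⁻¹ = of (tr 3 1) := by
    have := t_uu_zpow (R := ℤ) 1
    rw [zpow_one, zpow_one] at this
    rw [show (tr 0 1 : W ℤ) = uu from rfl, this, mul_inv_cancel_right]
    rfl
  have h1 := no_hom a b t' u' (Subtype.ext (by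
      change (of (tr 1 0) : E ℤ) * of (tr 0 1) = of (tr 0 1) * of (tr 1 0)
      rw [← map_mul, ← map_mul, tr_mul, tr_mul, add_comm, add_comm (0 : ℤ) 1]))
    (Subtype.ext (by
      change (t : E ℤ) * of (tr 0 1) * t⁻¹ = of (tr 1 0) ^ 3 * of (tr 0 1)
      rw [key, ← map_pow, ← map_mul, tr_pow, tr_mul]
      norm_num))
    (Subtype.ext (by
      change (sg * t * sg⁻¹) * of (tr 1 0) * (sg * t * sg⁻¹)⁻¹ = of (tr 1 0) * of (tr 0 1) ^ 3
      have e1 : sg⁻¹ * of (tr 1 0) * sg = (of (tr 0 1) : E ℤ) := by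
        rw [sg, ← map_inv, ← map_mul, ← map_mul]; rfl
      have e2 : sg * of (tr 3 1) * sg⁻¹ = (of (tr 1 3) : E ℤ) := by
        rw [sg, ← map_inv, ← map_mul, ← map_mul]; rfl
      calc (sg * t * sg⁻¹) * of (tr 1 0) * (sg * t * sg⁻¹)⁻¹ =
          sg * (t * (sg⁻¹ * of (tr 1 0) * sg) * t⁻¹) * sg⁻¹ := by group
        _ = of (tr 1 3) := by rw [e1, key, e2]
        _ = of (tr 1 0) * of (tr 0 1) ^ 3 := by
          rw [← map_pow, ← map_mul, tr_pow, tr_mul]
          norm_num))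
    K hK ψ haK
  rw [hψ] at h1
  have h2 := congrArg Multiplicative.toAdd h1
  simp at h2

end Pool.Agent.S00750
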