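import Pool.Statements.S01247
import Pool.Agent.V5helper37.PS.Fin

set_option autoImplicit false
open Pool Pool.MP_3cdb71_al

namespace Pool.Agent.S01247

/-- There is a group G with a generating set X such that every map from X into G extends to an endomorphism of G (G is relatively free), G has two elements generating a free semigroup of rank 2, and the commutator subgroup [G,G] is finitely generated. -/
theorem result :
    ∃ (G : Type) (_ : Group G) (X : Set G),
      Subgroup.closure X = ⊤ ∧
      (∀ f : X → G, ∃ φ : G →* G, ∀ x : X, φ (x : G) = f x) ∧
      (∃ a b : G,
        Function.Injective
          (FreeSemigroup.lift (fun i : Bool => if i then a else b) : FreeSemigroup Bool → G)) ∧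
      (commutator G).FG := by
  exact Pool.Agent.V5helper37.PS.main

end Pool.Agent.S01247
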