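import Pool.Statements.S02472
import Pool.Agent.V5helper37.Ch.Sound

set_option autoImplicit false
open Pool Pool.MP_9c3b79_al

/-! # The group of the universal chiral polytope `{{4,4}_(2,4),{4,3}}` is finite

The group `Γ_{2,4}` is finite (of order `2949120`) although `{2, 4}` is not in the list. The proof
is an enumeration of the `36864` cosets of the finite subgroup `⟨a, b⟩`. With the involutions
`p = abc`, `v = bc`, `u = ab` as generators, every edge of the coset graph outside a spanning tree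
follows from a relator all of whose other edges have been deduced before. -/

namespace Pool.Agent.S02472

open Pool.Agent.V5helper37.Ch
open scoped Pointwise

section

variable {G : Type*} [Group G]

/-- the subgroup generated by `a` and `b` is finite -/
theorem finite_ab (a b : G) (ha : a ^ 4 = 1) (hb4 : b ^ 4 = 1) (hab : (a * b) ^ 2 = 1)
    (hr : (a⁻¹ * b) ^ 2 * (a * b⁻¹) ^ 4 = 1) :
    ((Subgroup.closure ({a, b} : Set G) : Subgroup G) : Set G).Finite := by
  have hab' : a * b * (a * b) = 1 := by rw [← sq]; exact hab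
  obtain ⟨x, hx⟩ : ∃ x, x = a⁻¹ * b := ⟨_, rfl⟩
  obtain ⟨y, hy⟩ : ∃ y, y = a * b⁻¹ := ⟨_, rfl⟩
  rw [← hx, ← hy] at hr
  have hb : b = a * x := by rw [hx]; group
  have h1 : a * x = y⁻¹ * a := by rw [hx, hy]; group
  have h2 : b⁻¹ * a⁻¹ = a * b := by
    rw [← mul_inv_rev]
    exact inv_eq_of_mul_eq_one_left hab'
  have ha4 : a * a * a * a = 1 := by
    rw [← ha]; simp [pow_succ]
  have hb4' : b * b * b * b = 1 := by
    rw [← hb4]; simp [pow_succ]
  have ha3 : a * a * a = a⁻¹ := eq_inv_of_mul_eq_one_left ha4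
  have h3 : a * y = x * a := by
    have e1 : a * y * a⁻¹ = a * a * (b⁻¹ * a⁻¹) := by rw [hy]; group
    have e2 : a * y * a⁻¹ = x := by
      rw [e1, h2, hx, ← ha3]
      group
    calc a * y = a * y * a⁻¹ * a := by group
      _ = x * a := by rw [e2]
  have hcomm : Commute x y := by
    have e3 : b * a = a⁻¹ * b⁻¹ := by
      have : a * (b * a) * b = 1 := by
        calc a * (b * a) * b = a * b * (a * b) := by group
          _ = 1 := hab'
      calc b * a = a⁻¹ * (a * (b * a) * b) * b⁻¹ := by group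
        _ = a⁻¹ * b⁻¹ := by rw [this, mul_one]
    have e4 : x * y = a⁻¹ * a⁻¹ * (b⁻¹ * b⁻¹) := by
      calc x * y = a⁻¹ * (b * a) * b⁻¹ := by rw [hx, hy]; group
        _ = a⁻¹ * a⁻¹ * (b⁻¹ * b⁻¹) := by rw [e3]; group
    have e5 : y * x = a * a * (b * b) := by
      calc y * x = a * (b⁻¹ * a⁻¹) * b := by rw [hx, hy]; group
        _ = a * a * (b * b) := by rw [h2]; group
    have e6 : a⁻¹ * a⁻¹ = a * a := by
      rw [← mul_inv_rev]
      exact inv_eq_of_mul_eq_one_left (by rw [← mul_assoc]; exact ha4)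
    have e7 : b⁻¹ * b⁻¹ = b * b := by
      rw [← mul_inv_rev]
      exact inv_eq_of_mul_eq_one_left (by rw [← mul_assoc]; exact hb4')
    rw [Commute, SemiconjBy, e4, e5, e6, e7]
  -- `y ^ 2 = x ^ 4`
  have hay : ∀ m : ℕ, a * y ^ m = x ^ m * a := by
    intro m
    induction m with
    | zero => simp
    | succ m ih => rw [pow_succ', pow_succ', ← mul_assoc, h3, mul_assoc, ih, mul_assoc]
  have hax : ∀ m : ℕ, a * x ^ m = (y⁻¹) ^ m * a := by
    intro m
    induction m with
    | zero => simp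
    | succ m ih => rw [pow_succ', pow_succ', ← mul_assoc, h1, mul_assoc, ih, mul_assoc]
  have h5 : y ^ 2 = x ^ 4 := by
    have e : (y⁻¹) ^ 2 * x ^ 4 = 1 := by
      have : a * (x ^ 2 * y ^ 4) = (y⁻¹) ^ 2 * x ^ 4 * a := by
        rw [← mul_assoc, hax, mul_assoc, hay, mul_assoc]
      rw [hr, mul_one] at this
      exact mul_right_cancel (b := a) (by rw [one_mul]; exact this.symm)
    calc y ^ 2 = y ^ 2 * ((y⁻¹) ^ 2 * x ^ 4) := by rw [e, mul_one]
      _ = x ^ 4 := by group
  have hx10 : x ^ 10 = 1 := by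
    have e : y ^ 4 = x ^ 8 := by
      calc y ^ 4 = y ^ 2 * y ^ 2 := by group
        _ = x ^ 8 := by rw [h5]; group
    rw [e] at hr
    calc x ^ 10 = x ^ 2 * x ^ 8 := by group
      _ = 1 := hr
  have hy10 : y ^ 10 = 1 := by
    calc y ^ 10 = (y ^ 2) ^ 5 := by group
      _ = (x ^ 10) ^ 2 := by rw [h5]; group
      _ = 1 := by rw [hx10, one_pow]
  -- the set of the products
  have hfx : IsOfFinOrder x := isOfFinOrder_iff_pow_eq_one.mpr ⟨10, by norm_num, hx10⟩
  have hfy : IsOfFinOrder y := isOfFinOrder_iff_pow_eq_one.mpr ⟨10, by norm_num, hy10⟩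
  have hfa : IsOfFinOrder a := isOfFinOrder_iff_pow_eq_one.mpr ⟨4, by norm_num, ha⟩
  have hfin : (((Subgroup.zpowers x : Subgroup G) : Set G) *
      ((Subgroup.zpowers y : Subgroup G) : Set G) *
      ((Subgroup.zpowers a : Subgroup G) : Set G)).Finite :=
    (hfx.finite_zpowers.mul hfy.finite_zpowers).mul hfa.finite_zpowers
  refine hfin.subset ?_
  -- `a` normalises the group of the translations
  have hN : ∀ i j : ℤ, a * (x ^ i * y ^ j) = x ^ j * y ^ (-i) * a := by
    intro i j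
    have c1 : a * x ^ i * a⁻¹ = y ^ (-i) := by
      have : a * x * a⁻¹ = y⁻¹ := by rw [h1]; group
      rw [← conj_zpow, this, inv_zpow, zpow_neg]
    have c2 : a * y ^ j * a⁻¹ = x ^ j := by
      have : a * y * a⁻¹ = x := by rw [h3]; group
      rw [← conj_zpow, this]
    calc a * (x ^ i * y ^ j) = (a * x ^ i * a⁻¹) * (a * y ^ j * a⁻¹) * a := by group
      _ = y ^ (-i) * x ^ j * a := by rw [c1, c2]
      _ = x ^ j * y ^ (-i) * a := by rw [(hcomm.zpow_zpow j (-i)).eq]
  have hN' : ∀ (m : ℕ) (i j : ℤ), ∃ i' j' : ℤ, a ^ m * (x ^ i * y ^ j) = x ^ i' * y ^ j' * a ^ m := by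
    intro m
    induction m with
    | zero => intro i j; exact ⟨i, j, by simp⟩
    | succ m ih =>
      intro i j
      obtain ⟨i', j', h⟩ := ih j (-i)
      refine ⟨i', j', ?_⟩
      rw [pow_succ, mul_assoc, hN, ← mul_assoc, h, mul_assoc]
  have hnat : ∀ k : ℤ, ∃ m : ℕ, a ^ k = a ^ m := by
    intro k
    refine ⟨(k % 4).toNat, ?_⟩
    have h0 : 0 ≤ k % 4 := Int.emod_nonneg _ (by norm_num)
    have h4 : a ^ (4 : ℤ) = 1 := by exact_mod_cast ha
    conv_lhs => rw [← Int.mul_ediv_add_emod k 4, zpow_add, zpow_mul, h4, one_zpow, one_mul]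
    rw [← zpow_natCast, Int.toNat_of_nonneg h0]
  have hmul : ∀ i j k i' j' k' : ℤ, ∃ i'' j'' k'' : ℤ,
      x ^ i * y ^ j * a ^ k * (x ^ i' * y ^ j' * a ^ k') = x ^ i'' * y ^ j'' * a ^ k'' := by
    intro i j k i' j' k'
    obtain ⟨m, hm⟩ := hnat k
    obtain ⟨p, q, h⟩ := hN' m i' j'
    refine ⟨i + p, j + q, m + k', ?_⟩
    calc x ^ i * y ^ j * a ^ k * (x ^ i' * y ^ j' * a ^ k')
        = x ^ i * y ^ j * (a ^ m * (x ^ i' * y ^ j')) * a ^ k' := by rw [hm]; group
      _ = x ^ i * (y ^ j * x ^ p) * y ^ q * a ^ m * a ^ k' := by rw [h]; group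
      _ = x ^ i * (x ^ p * y ^ j) * y ^ q * a ^ m * a ^ k' := by
          rw [(hcomm.zpow_zpow p j).eq]
      _ = x ^ (i + p) * y ^ (j + q) * a ^ ((m : ℤ) + k') := by
          rw [zpow_add, zpow_add, zpow_add, zpow_natCast]; group
  have hinv' : ∀ i j k : ℤ, ∃ i'' j'' k'' : ℤ,
      (x ^ i * y ^ j * a ^ k)⁻¹ = x ^ i'' * y ^ j'' * a ^ k'' := by
    intro i j k
    obtain ⟨m, hm⟩ := hnat (-k)
    obtain ⟨p, q, h⟩ := hN' m (-i) (-j)
    refine ⟨p, q, m, ?_⟩
    calc (x ^ i * y ^ j * a ^ k)⁻¹ = a ^ (-k) * (y ^ (-j) * x ^ (-i)) := by group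
      _ = a ^ m * (x ^ (-i) * y ^ (-j)) := by rw [hm, (hcomm.zpow_zpow (-i) (-j)).eq]
      _ = x ^ p * y ^ q * a ^ (m : ℤ) := by rw [h, zpow_natCast]
  have hall : ∀ z ∈ Subgroup.closure ({a, b} : Set G), ∃ i j k : ℤ, z = x ^ i * y ^ j * a ^ k := by
    intro z hz
    induction hz using Subgroup.closure_induction with
    | mem w hw =>
      simp only [Set.mem_insert_iff, Set.mem_singleton_iff] at hw
      rcases hw with h | h
      · exact ⟨0, 0, 1, by rw [h]; simp⟩
      · refine ⟨0, -1, 1, ?_⟩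
        rw [h, hb, h1]; simp
    | one => exact ⟨0, 0, 0, by simp⟩
    | mul u w _ _ hu hw =>
      obtain ⟨i, j, k, rfl⟩ := hu
      obtain ⟨i', j', k', rfl⟩ := hw
      exact hmul i j k i' j' k'
    | inv u _ hu =>
      obtain ⟨i, j, k, rfl⟩ := hu
      exact hinv' i j k
  intro z hz
  obtain ⟨i, j, k, rfl⟩ := hall z hz
  exact Set.mul_mem_mul (Set.mul_mem_mul (Subgroup.zpow_mem_zpowers x i)
    (Subgroup.zpow_mem_zpowers y j)) (Subgroup.zpow_mem_zpowers a k)

/-- all leaves satisfy `p` -/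
def allLeaves {α : Type} (p : α → Bool) : Tr α → Bool
  | .leaf v => p v
  | .node l r => allLeaves p l && allLeaves p r

theorem allLeaves_get {α : Type} (p : α → Bool) (t : Tr α) (h : allLeaves p t = true) (k : Nat) :
    p (t.get k) = true := by
  induction t generalizing k with
  | leaf v => exact h
  | node l r ihl ihr =>
    rw [allLeaves, Bool.and_eq_true] at h
    have e : (Tr.node l r).get k = @Bool.rec (fun _ => α) (r.get (Nat.div k 2)) (l.get (Nat.div k 2))
      (Nat.beq (Nat.mod k 2) 0) := rfl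
    rw [e]
    cases Nat.beq (Nat.mod k 2) 0
    · exact ihr h.2 _
    · exact ihl h.1 _

/-- the relators in the letters `p, v, u` -/
def bases : List (List Nat) :=
  [[0, 1, 0, 1, 0, 1, 0, 1], [2, 0, 2, 0, 2, 0], [1, 0, 2, 1, 0, 2, 1, 0, 2, 1, 0, 2],
    [1, 0, 1, 0, 2, 1, 0, 1, 0, 2, 0, 1, 2, 0, 1, 0, 1, 2, 0, 1, 0, 1, 2, 0, 1, 0, 1, 2, 0, 1]]

/-- rotations of the relators and of the reversed relators -/
def okWord (w : List Nat) : Bool :=
  (w == []) || bases.any fun b => (List.range 30).any fun k =>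
    (w == b.rotate k) || (w == b.reverse.rotate k)

/-- all words of the table are relations -/
theorem words (g : Nat → G) (hsq : ∀ x, g x * g x = 1)
    (h1 : (g 0 * g 1) ^ 4 = 1) (h2 : (g 2 * g 0) ^ 3 = 1) (h3 : (g 1 * g 0 * g 2) ^ 4 = 1)
    (h4 : (g 1 * g 0 * (g 1 * g 0 * g 2)) ^ 2 * (g 0 * g 1 * (g 2 * g 0 * g 1)) ^ 4 = 1) (k : Nat) :
    (∀ y ∈ wtable.get k, y < 3) ∧ ((wtable.get k).map g).prod = 1 := by
  have hok : okWord (wtable.get k) = true :=
    allLeaves_get okWord wtable (by decide +kernel) k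
  have hb : ∀ b ∈ bases, (∀ y ∈ b, y < 3) ∧ (b.map g).prod = 1 := by
    intro b hb
    refine ⟨?_, ?_⟩
    · have : ∀ b ∈ bases, ∀ y ∈ b, y < 3 := by decide
      exact this b hb
    · simp only [bases, List.mem_cons, List.not_mem_nil, or_false] at hb
      rcases hb with rfl | rfl | rfl | rfl
      · rw [← h1]; simp [pow_succ, mul_assoc]
      · rw [← h2]; simp [pow_succ, mul_assoc]
      · rw [← h3]; simp [pow_succ, mul_assoc]
      · rw [← h4]; simp [pow_succ, mul_assoc]
  have hinv : ∀ x, (g x)⁻¹ = g x := fun x => inv_eq_of_mul_eq_one_left (hsq x)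
  have hrev : ∀ b : List Nat, (b.map g).prod = 1 → (b.reverse.map g).prod = 1 := by
    intro b hb
    have e := List.prod_inv_reverse (b.map g)
    rw [hb, inv_one, List.map_map] at e
    rw [List.map_reverse, e]
    congr 2
    refine List.map_congr_left fun x _ => ?_
    simp [hinv]
  rw [okWord, Bool.or_eq_true] at hok
  rcases hok with h | h
  · have : wtable.get k = [] := by simpa using h
    rw [this]; simp
  · rw [List.any_eq_true] at h
    obtain ⟨b, hb', h⟩ := h
    rw [List.any_eq_true] at h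
    obtain ⟨m, _, h⟩ := h
    rw [Bool.or_eq_true, beq_iff_eq, beq_iff_eq] at h
    obtain ⟨h5, h6⟩ := hb b hb'
    rcases h with h | h <;> rw [h]
    · refine ⟨fun y hy => h5 y (List.mem_rotate.mp hy), ?_⟩
      rw [List.map_rotate]
      exact List.prod_rotate_eq_one_of_prod_eq_one h6 m
    · refine ⟨fun y hy => h5 y (List.mem_reverse.mp (List.mem_rotate.mp hy)), ?_⟩
      rw [List.map_rotate]
      exact List.prod_rotate_eq_one_of_prod_eq_one (hrev b h6) m

/-- a group with generators which satisfy the relations of `Γ_{2,4}` is finite -/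
theorem finite_of_rel (a b c : G) (ha : a ^ 4 = 1) (hb : b ^ 4 = 1) (hc : c ^ 3 = 1)
    (hab : (a * b) ^ 2 = 1) (hbc : (b * c) ^ 2 = 1) (habc : (a * b * c) ^ 2 = 1)
    (hr : (a⁻¹ * b) ^ 2 * (a * b⁻¹) ^ 4 = 1)
    (hgen : Subgroup.closure ({a, b, c} : Set G) = ⊤) : Finite G := by
  let g : Nat → G := fun x => if x = 0 then a * b * c else if x = 1 then b * c else
    if x = 2 then a * b else 1
  have g0 : g 0 = a * b * c := rfl
  have g1 : g 1 = b * c := rfl
  have g2 : g 2 = a * b := rfl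
  have hsq : ∀ x, g x * g x = 1 := by
    intro x
    simp only [g]
    split_ifs
    · rw [← sq, habc]
    · rw [← sq, hbc]
    · rw [← sq, hab]
    · rw [mul_one]
  have hinv : ∀ x, (g x)⁻¹ = g x := fun x => inv_eq_of_mul_eq_one_left (hsq x)
  have ea : g 0 * g 1 = a := by
    rw [← hinv 1, g0, g1]; group
  have ec : g 2 * g 0 = c := by
    rw [← hinv 2, g0, g2]; group
  have eb : g 1 * g 0 * g 2 = b := by
    have : g 1 * g 0 = (g 0 * g 1)⁻¹ := by rw [mul_inv_rev, hinv, hinv]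
    rw [this, ea, g2]; group
  have eb' : g 2 * g 0 * g 1 = b⁻¹ := by
    rw [← eb, mul_inv_rev, mul_inv_rev, hinv, hinv, hinv, mul_assoc]
  have ea' : g 1 * g 0 = a⁻¹ := by rw [← ea, mul_inv_rev, hinv, hinv]
  have hw := words g hsq (by rw [ea, ha]) (by rw [ec, hc]) (by rw [eb, hb])
    (by rw [eb, ea', ea, eb', hr])
  refine finite_of_words g (Subgroup.closure ({a, b} : Set G)) (finite_ab a b ha hb hab hr) hsq hw
    ?_ ?_ ?_
  · rw [ea]; exact Subgroup.subset_closure (by simp)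
  · rw [g2]
    exact Subgroup.mul_mem _ (Subgroup.subset_closure (by simp)) (Subgroup.subset_closure (by simp))
  · rw [eq_top_iff, ← hgen, Subgroup.closure_le]
    intro z hz
    have m : ∀ x, x = 0 ∨ x = 1 ∨ x = 2 → g x ∈ Subgroup.closure ({g 0, g 1, g 2} : Set G) := by
      intro x hx
      apply Subgroup.subset_closure
      rcases hx with rfl | rfl | rfl <;> simp
    simp only [Set.mem_insert_iff, Set.mem_singleton_iff] at hz
    rcases hz with rfl | rfl | rfl
    · have := Subgroup.mul_mem _ (m 0 (by simp)) (m 1 (by simp))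
      rwa [ea] at this
    · have := Subgroup.mul_mem _ (Subgroup.mul_mem _ (m 1 (by simp)) (m 0 (by simp))) (m 2 (by simp))
      rwa [eb] at this
    · have := Subgroup.mul_mem _ (m 2 (by simp)) (m 0 (by simp))
      rwa [ec] at this

end

/-- The negation of the preceding statement: For positive integers s ≠ t, the group ⟨σ1,σ2,σ3 : σ1^4=σ2^4=σ3^3=(σ1σ2)^2=(σ2σ3)^2=(σ1σ2σ3)^2=(σ1⁻¹σ2)^s(σ1σ2⁻¹)^t=1⟩ is finite iff {s,t} is {1,2}, {1,3}, {1,4} or {2,3}. -/
theorem result :
    ¬ (∀ s t : ℕ, 0 < s → 0 < t → s ≠ t →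
      (Finite (PresentedGroup
        ({FreeGroup.of (0 : Fin 3) ^ 4,
          FreeGroup.of (1 : Fin 3) ^ 4,
          FreeGroup.of (2 : Fin 3) ^ 3,
          (FreeGroup.of (0 : Fin 3) * FreeGroup.of (1 : Fin 3)) ^ 2,
          (FreeGroup.of (1 : Fin 3) * FreeGroup.of (2 : Fin 3)) ^ 2,
          (FreeGroup.of (0 : Fin 3) * FreeGroup.of (1 : Fin 3) * FreeGroup.of (2 : Fin 3)) ^ 2,
          ((FreeGroup.of (0 : Fin 3))⁻¹ * FreeGroup.of (1 : Fin 3)) ^ s *
            (FreeGroup.of (0 : Fin 3) * (FreeGroup.of (1 : Fin 3))⁻¹) ^ t}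
          : Set (FreeGroup (Fin 3)))) ↔
        ((s = 1 ∧ t = 2) ∨ (s = 2 ∧ t = 1) ∨
         (s = 1 ∧ t = 3) ∨ (s = 3 ∧ t = 1) ∨
         (s = 1 ∧ t = 4) ∨ (s = 4 ∧ t = 1) ∨
         (s = 2 ∧ t = 3) ∨ (s = 3 ∧ t = 2)))) := by
  intro hall
  have h := (hall 2 4 (by norm_num) (by norm_num) (by norm_num)).mp ?_
  · revert h; norm_num
  set rels : Set (FreeGroup (Fin 3)) := {FreeGroup.of (0 : Fin 3) ^ 4,
          FreeGroup.of (1 : Fin 3) ^ 4,
          FreeGroup.of (2 : Fin 3) ^ 3,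
          (FreeGroup.of (0 : Fin 3) * FreeGroup.of (1 : Fin 3)) ^ 2,
          (FreeGroup.of (1 : Fin 3) * FreeGroup.of (2 : Fin 3)) ^ 2,
          (FreeGroup.of (0 : Fin 3) * FreeGroup.of (1 : Fin 3) * FreeGroup.of (2 : Fin 3)) ^ 2,
          ((FreeGroup.of (0 : Fin 3))⁻¹ * FreeGroup.of (1 : Fin 3)) ^ 2 *
            (FreeGroup.of (0 : Fin 3) * (FreeGroup.of (1 : Fin 3))⁻¹) ^ 4} with hrels
  have hone : ∀ r ∈ rels, PresentedGroup.mk rels r = 1 := fun r hr =>
    PresentedGroup.one_of_mem hr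
  refine finite_of_rel (PresentedGroup.mk rels (FreeGroup.of 0))
    (PresentedGroup.mk rels (FreeGroup.of 1)) (PresentedGroup.mk rels (FreeGroup.of 2))
    ?_ ?_ ?_ ?_ ?_ ?_ ?_ ?_
  · rw [← map_pow]; exact hone _ (by simp [hrels])
  · rw [← map_pow]; exact hone _ (by simp [hrels])
  · rw [← map_pow]; exact hone _ (by simp [hrels])
  · rw [← map_mul, ← map_pow]; exact hone _ (by simp [hrels])
  · rw [← map_mul, ← map_pow]; exact hone _ (by simp [hrels])
  · rw [← map_mul, ← map_mul, ← map_pow]; exact hone _ (by simp [hrels])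
  · rw [← map_inv, ← map_inv, ← map_mul, ← map_mul, ← map_pow, ← map_pow, ← map_mul]
    exact hone _ (by simp [hrels])
  · rw [eq_top_iff, ← PresentedGroup.closure_range_of rels, Subgroup.closure_le]
    rintro _ ⟨i, rfl⟩
    apply Subgroup.subset_closure
    fin_cases i
    · left; rfl
    · right; left; rfl
    · right; right; rfl

end Pool.Agent.S02472
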