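import Pool.Statements.S03469
import Pool.Agent.V5helper35.PI.Kap

set_option autoImplicit false
open Pool Pool.MP_ecbc69_al

/-! # `E_n(R)` is normal in `GL_n(R)` for every PI ring `R` and `n ≥ 3`

Outline (helper files in `Pool/Agent/V5helper35/PI/`).

* `El`: `1 + v w` with `w · v = 0` and a zero coordinate of `w` is elementary; a local-global
  criterion at the maximal ideals of a central subring.
* `Jac`: normality lifts from `R/J` to `R` when `1 + J` consists of left invertible elements.
* `Main`: normality lifts from `R/𝔞R` to `R` for an ideal `𝔞` of a central subring `C` such that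
  `R` has stable range one modulo every maximal ideal of `C` not containing `𝔞`, plus two
  integrality conditions.
* `SR`, `Int`: these conditions hold when `𝔞` is generated by central elements with Cramer type
  relations.
* `Cap`, `Cap2`: Capelli expressions provide such central elements, which do not vanish on the
  simple modules of maximal degree.
* `Ind`: induction on the maximal degree of the split representations.
* `Kap`: a PI ring has split representations of bounded degree (Kaplansky). -/

namespace Pool.Agent.S03469

/-- For every unital ring satisfying a multilinear polynomial identity with a coefficient 1, and every n ≥ 3, the subgroup of GL_n(R) generated by elementary transvections I + rE_ij (i ≠ j) is normal in GL_n(R). -/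
theorem result :
    ∀ (R : Type) [Ring R],
      (∃ d : ℕ, 0 < d ∧ ∃ c : Equiv.Perm (Fin d) → ℤ, c 1 = 1 ∧
        ∀ x : Fin d → R,
          ∑ σ : Equiv.Perm (Fin d), ((c σ : ℤ) : R) * (List.ofFn (fun i => x (σ i))).prod = 0) →
      ∀ n : ℕ, 3 ≤ n →
        (Subgroup.closure
          {g : Matrix.GeneralLinearGroup (Fin n) R |
            ∃ i j : Fin n, i ≠ j ∧ ∃ r : R,
              (g : Matrix (Fin n) (Fin n) R) =
                1 + Matrix.of (fun a b => if a = i ∧ b = j then r else 0)}).Normal := by
  intro R _ hPI n hn
  obtain ⟨d, _, c, hc, hx⟩ := hPI
  have hN : V5helper35.PI.Nor n R :=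
    V5helper35.PI.nor_of_Q hn d R (V5helper35.PI.Q_of_PI ⟨c, hc, hx⟩)
  have hE : (Subgroup.closure
          {g : Matrix.GeneralLinearGroup (Fin n) R |
            ∃ i j : Fin n, i ≠ j ∧ ∃ r : R,
              (g : Matrix (Fin n) (Fin n) R) =
                1 + Matrix.of (fun a b => if a = i ∧ b = j then r else 0)}) =
      V5helper35.PI.EU n R := by
    unfold V5helper35.PI.EU
    congr 1
    ext g
    have key : ∀ (i j : Fin n) (r : R), V5helper35.PI.tr i j r =
        1 + Matrix.of (fun a b => if a = i ∧ b = j then r else 0) := by
      intro i j r
      unfold V5helper35.PI.tr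
      congr 1
      ext a b
      rw [Matrix.single_apply, Matrix.of_apply]
      simp only [eq_comm]
    simp only [key]
  rw [hE]
  exact ⟨fun x hx g => hN g x hx⟩

end Pool.Agent.S03469
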