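import Pool.Statements.S06037
import Pool.Agent.V5helper27.CI.Final

set_option autoImplicit false
open Pool Pool.MP_c2df89_an

namespace Pool.Agent.S06037

/-- In the convolution algebra ℓ¹ of the free group on countably many generators, every closed two-sided ideal of codimension two equals the linear span of products of pairs of its elements. -/
theorem result :
    ∀ I : Submodule ℂ (lp (fun _ : FreeGroup ℕ => ℂ) 1),
      IsClosed (I : Set (lp (fun _ : FreeGroup ℕ => ℂ) 1)) →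
      (∀ f ∈ I, ∀ g h : lp (fun _ : FreeGroup ℕ => ℂ) 1,
        ((∀ x : FreeGroup ℕ, h x = ∑' y : FreeGroup ℕ, f y * g (y⁻¹ * x)) → h ∈ I) ∧
        ((∀ x : FreeGroup ℕ, h x = ∑' y : FreeGroup ℕ, g y * f (y⁻¹ * x)) → h ∈ I)) →
      Module.finrank ℂ ((lp (fun _ : FreeGroup ℕ => ℂ) 1) ⧸ I) = 2 →
      Submodule.span ℂ
        {h : lp (fun _ : FreeGroup ℕ => ℂ) 1 |
          ∃ a ∈ I, ∃ b ∈ I, ∀ x : FreeGroup ℕ,
            h x = ∑' y : FreeGroup ℕ, a y * b (y⁻¹ * x)} = I :=
  Pool.Agent.V5helper27.CI.codim_two (FreeGroup ℕ)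

end Pool.Agent.S06037
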