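import Pool.Statements.S06395
import Pool.Agent.V5helper26.DD.CaseJ

set_option autoImplicit false
open MeasureTheory Polynomial
open Pool Pool.MP_dd438b_an

namespace Pool.Agent.S06395

/-- If real polynomials pₙ of degree n are orthogonal for both ∫fg dφ and ∫fg dφ+∫f'g' dψ+∫f''g'' dη (η≠0, φ infinite support, finite moments), then some pₙ(ax+b) is orthogonal for a classical or Krall-type measure. -/
theorem result :
  ∀ (φ ψ η : MeasureTheory.Measure ℝ) (p : ℕ → Polynomial ℝ),
    (∀ k : ℕ, MeasureTheory.Integrable (fun x : ℝ => x ^ k) φ) →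
    (∀ k : ℕ, MeasureTheory.Integrable (fun x : ℝ => x ^ k) ψ) →
    (∀ k : ℕ, MeasureTheory.Integrable (fun x : ℝ => x ^ k) η) →
    (∀ s : Finset ℝ, φ ((↑s : Set ℝ)ᶜ) ≠ 0) →
    η ≠ 0 →
    (∀ n : ℕ, (p n).degree = ((n : ℕ) : WithBot ℕ)) →
    (∀ n m : ℕ, n ≠ m → ∫ x, (p n).eval x * (p m).eval x ∂φ = 0) →
    (∀ n : ℕ, ∫ x, (p n).eval x * (p n).eval x ∂φ ≠ 0) →
    (∀ n m : ℕ, n ≠ m →
      (∫ x, (p n).eval x * (p m).eval x ∂φ)
        + (∫ x, (Polynomial.derivative (p n)).eval x
              * (Polynomial.derivative (p m)).eval x ∂ψ)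
        + (∫ x, (Polynomial.derivative (Polynomial.derivative (p n))).eval x
              * (Polynomial.derivative (Polynomial.derivative (p m))).eval x ∂η) = 0) →
    (∀ n : ℕ,
      (∫ x, (p n).eval x * (p n).eval x ∂φ)
        + (∫ x, (Polynomial.derivative (p n)).eval x
              * (Polynomial.derivative (p n)).eval x ∂ψ)
        + (∫ x, (Polynomial.derivative (Polynomial.derivative (p n))).eval x
              * (Polynomial.derivative (Polynomial.derivative (p n))).eval x ∂η) ≠ 0) →
    ∃ μ : MeasureTheory.Measure ℝ,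
      ((∃ α β : ℝ, -1 < α ∧ -1 < β ∧
          μ = MeasureTheory.volume.withDensity (fun x : ℝ => ENNReal.ofReal
            ((Set.Icc (-1 : ℝ) 1).indicator (fun y : ℝ => (1 - y) ^ α * (1 + y) ^ β) x)))
        ∨ (∃ α : ℝ, -1 < α ∧
          μ = MeasureTheory.volume.withDensity (fun x : ℝ => ENNReal.ofReal
            ((Set.Ioi (0 : ℝ)).indicator (fun y : ℝ => y ^ α * Real.exp (-y)) x)))
        ∨ (μ = MeasureTheory.volume.withDensity (fun x : ℝ => ENNReal.ofReal
            (Real.exp (-(x ^ 2)))))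
        ∨ (∃ A : ℝ, 0 < A ∧
          μ = MeasureTheory.volume.restrict (Set.Icc (-1 : ℝ) 1)
            + ENNReal.ofReal (1 / A) • (MeasureTheory.Measure.dirac (-1 : ℝ)
                + MeasureTheory.Measure.dirac (1 : ℝ)))
        ∨ (∃ R : ℝ, 0 < R ∧
          μ = MeasureTheory.volume.withDensity (fun x : ℝ => ENNReal.ofReal
            ((Set.Ioi (0 : ℝ)).indicator (fun y : ℝ => Real.exp (-y)) x))
            + ENNReal.ofReal (1 / R) • MeasureTheory.Measure.dirac (0 : ℝ))
        ∨ (∃ α M : ℝ, -1 < α ∧ 0 < M ∧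
          μ = MeasureTheory.volume.withDensity (fun x : ℝ => ENNReal.ofReal
            ((Set.Ico (0 : ℝ) 1).indicator (fun y : ℝ => (1 - y) ^ α) x))
            + ENNReal.ofReal (1 / M) • MeasureTheory.Measure.dirac (0 : ℝ)))
      ∧ ∃ a b : ℝ, a ≠ 0 ∧
        (∀ n : ℕ, ((p n).comp (Polynomial.C a * Polynomial.X + Polynomial.C b)).degree
            = ((n : ℕ) : WithBot ℕ)) ∧
        (∀ n m : ℕ, n ≠ m →
          ∫ x, ((p n).comp (Polynomial.C a * Polynomial.X + Polynomial.C b)).eval x
            * ((p m).comp (Polynomial.C a * Polynomial.X + Polynomial.C b)).eval x ∂μ = 0) ∧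
        (∀ n : ℕ,
          ∫ x, ((p n).comp (Polynomial.C a * Polynomial.X + Polynomial.C b)).eval x
            * ((p n).comp (Polynomial.C a * Polynomial.X + Polynomial.C b)).eval x ∂μ ≠ 0) := by
  intro φ ψ η p hφ hψ hη hinf hη0 hp h1 h2 h3 _
  obtain ⟨A, B, P, Q, hK⟩ := Pool.Agent.V5helper26.DD.krall_of_orth φ ψ η p hφ hψ hη hinf hη0 hp h1 h2 h3
  obtain ⟨μ, hμ, a, b, K, ha, hK0, hint⟩ := hK.concl
  refine ⟨μ, hμ, a, b, ha, fun n => ?_, fun n m hnm => ?_, fun n => ?_⟩
  · have hpn : (p n).natDegree = n := natDegree_eq_of_degree_eq_some (hp n)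
    have hp0 : p n ≠ 0 := by
      intro h; have := hp n; rw [h, degree_zero] at this
      exact absurd this (by simp)
    have hl : (C a * X + C b).natDegree = 1 := natDegree_linear ha
    have h4 : ((p n).comp (C a * X + C b)).natDegree = n := by
      rw [natDegree_comp, hpn, hl, mul_one]
    have h5 : (p n).comp (C a * X + C b) ≠ 0 := by
      intro h
      have h6 : ((p n).comp (C a * X + C b)).leadingCoeff = 0 := by rw [h]; simp
      rw [leadingCoeff_comp (by rw [hl]; simp), leadingCoeff_linear ha] at h6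
      rcases mul_eq_zero.1 h6 with h7 | h7
      · exact hp0 (leadingCoeff_eq_zero.1 h7)
      · exact (pow_ne_zero _ ha) h7
    rw [degree_eq_natDegree h5, h4]
  · have h4 := hint (p n * p m)
    have h5 : ∀ x, ((p n * p m).comp (C a * X + C b)).eval x =
        ((p n).comp (C a * X + C b)).eval x * ((p m).comp (C a * X + C b)).eval x := by
      intro x; rw [mul_comp, eval_mul]
    have h6 : ∀ x, (p n * p m).eval x = (p n).eval x * (p m).eval x := fun x => eval_mul
    simp only [h5, h6] at h4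
    rw [h4, h1 n m hnm, mul_zero]
  · have h4 := hint (p n * p n)
    have h5 : ∀ x, ((p n * p n).comp (C a * X + C b)).eval x =
        ((p n).comp (C a * X + C b)).eval x * ((p n).comp (C a * X + C b)).eval x := by
      intro x; rw [mul_comp, eval_mul]
    have h6 : ∀ x, (p n * p n).eval x = (p n).eval x * (p n).eval x := fun x => eval_mul
    simp only [h5, h6] at h4
    rw [h4]
    exact mul_ne_zero hK0 (h2 n)

end Pool.Agent.S06395
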