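import Pool.Statements.S06755
import Pool.Agent.V5helper19.SubExp.Core

set_option autoImplicit false
open Pool Pool.MP_f85ab1_an

namespace Pool.Agent.S06755

open Pool.Agent.V5helper19.SubExp

/-- If a unital C*-algebra has a dense, *-closed, multiplicative filtration by finite-dimensional subspaces starting at C1 with dimensions growing subexponentially, then it has the completely positive approximation property through matrix algebras, i.e. it is nuclear. -/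
theorem result :
  ∀ (A : Type) [CStarAlgebra A] (F : ℕ → Submodule ℂ A),
    Monotone F →
    F 0 = Submodule.span ℂ {(1 : A)} →
    (∀ m n : ℕ, ∀ x ∈ F m, ∀ y ∈ F n, x * y ∈ F (m + n)) →
    (∀ n : ℕ, ∀ x ∈ F n, star x ∈ F n) →
    Dense (⋃ n : ℕ, (F n : Set A)) →
    (∀ n : ℕ, FiniteDimensional ℂ (F n)) →
    Filter.Tendsto (fun n : ℕ => ((Module.finrank ℂ (F n) : ℕ) : ℝ) ^ (1 / (n : ℝ)))
      Filter.atTop (nhds 1) →
    ∀ (S : Finset A) (ε : ℝ), 0 < ε →
      ∃ (k : ℕ)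
        (φ : A →ₗ[ℂ] (EuclideanSpace ℂ (Fin k) →L[ℂ] EuclideanSpace ℂ (Fin k)))
        (ψ : (EuclideanSpace ℂ (Fin k) →L[ℂ] EuclideanSpace ℂ (Fin k)) →ₗ[ℂ] A),
        (∀ (n : ℕ) (y : Matrix (Fin n) (Fin n) A),
          ∃ z : Matrix (Fin n) (Fin n)
              (EuclideanSpace ℂ (Fin k) →L[ℂ] EuclideanSpace ℂ (Fin k)),
            (y.conjTranspose * y).map (⇑φ) = z.conjTranspose * z) ∧
        (∀ (n : ℕ) (y : Matrix (Fin n) (Fin n)
              (EuclideanSpace ℂ (Fin k) →L[ℂ] EuclideanSpace ℂ (Fin k))),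
          ∃ z : Matrix (Fin n) (Fin n) A,
            (y.conjTranspose * y).map (⇑ψ) = z.conjTranspose * z) ∧
        (∀ a : A, ‖φ a‖ ≤ ‖a‖) ∧
        (∀ b : EuclideanSpace ℂ (Fin k) →L[ℂ] EuclideanSpace ℂ (Fin k), ‖ψ b‖ ≤ ‖b‖) ∧
        ∀ a ∈ S, ‖ψ (φ a) - a‖ < ε := by
  intro A _ F hmono h0 hmul hstar hdense hfin hgrowth S ε hε
  rcases subsingleton_or_nontrivial A with hA | hA
  · refine ⟨0, 0, 0, ?_, ?_, ?_, ?_, ?_⟩
    · intro n y
      refine ⟨0, ?_⟩
      ext i j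
      simp
    · intro n y
      exact ⟨0, Subsingleton.elim _ _⟩
    · intro a; simp
    · intro b; simp
    · intro a _
      have : (0 : (EuclideanSpace ℂ (Fin 0) →L[ℂ] EuclideanSpace ℂ (Fin 0)) →ₗ[ℂ] A)
        ((0 : A →ₗ[ℂ] (EuclideanSpace ℂ (Fin 0) →L[ℂ] EuclideanSpace ℂ (Fin 0))) a) - a = 0 :=
        Subsingleton.elim _ _
      rw [this, norm_zero]; exact hε
  let _ := CStarAlgebra.spectralOrder A
  have _ := CStarAlgebra.spectralOrderedRing A
  -- approximate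
  have happ : ∀ a : A, ∃ b : A, ∃ n : ℕ, b ∈ F n ∧ ‖a - b‖ < ε / 4 := by
    intro a
    obtain ⟨b, hb, hab⟩ := Metric.dense_iff.1 hdense a (ε / 4) (by positivity)
    obtain ⟨n, hn⟩ := Set.mem_iUnion.1 hab
    refine ⟨b, n, hn, ?_⟩
    rw [Metric.mem_ball, dist_eq_norm] at hb
    rwa [norm_sub_rev]
  choose b nn hbn hab using happ
  set m : ℕ := S.sup nn + 1 with hm
  have hm1 : 1 ≤ m := by omega
  have hbm : ∀ a ∈ S, b a ∈ F m := fun a ha =>
    hmono ((Finset.le_sup ha).trans (Nat.le_succ _)) (hbn a)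
  set B : ℝ := ∑ a ∈ S, ‖b a‖ + 1 with hB
  have hB1 : 1 ≤ B := by
    have : 0 ≤ ∑ a ∈ S, ‖b a‖ := Finset.sum_nonneg fun _ _ => norm_nonneg _
    linarith
  have hbB : ∀ a ∈ S, ‖b a‖ ≤ B := by
    intro a ha
    have := Finset.single_le_sum (f := fun a => ‖b a‖) (fun _ _ => norm_nonneg _) ha
    linarith
  -- p
  set t : ℝ := min (1 / 2) (ε / (8 * B)) with ht
  have ht0 : 0 < t := lt_min (by norm_num) (by positivity)
  have ht1 : t ≤ 1 / 2 := min_le_left _ _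
  have ht2 : t ≤ ε / (8 * B) := min_le_right _ _
  set p : ℝ := 1 - t with hp
  have hp0 : 0 < p := by linarith
  have hp1 : p < 1 := by linarith
  have hc : (1 - p) ^ 2 / (2 * p) ≤ ε / (8 * B) := by
    have h1 : (1 - p) = t := by rw [hp]; ring
    rw [h1, div_le_iff₀ (by positivity)]
    have : t ^ 2 ≤ t * (2 * p) := by nlinarith
    calc t ^ 2 ≤ t * (2 * p) := this
      _ ≤ ε / (8 * B) * (2 * p) := mul_le_mul_of_nonneg_right ht2 (by positivity)
  -- growth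
  set q : ℝ := (p⁻¹) ^ (1 / (3 * m : ℝ)) with hq
  have hm0 : (0 : ℝ) < m := by exact_mod_cast hm1
  have hpinv : 1 < p⁻¹ := (one_lt_inv₀ hp0).2 hp1
  have hq1 : 1 < q := Real.one_lt_rpow hpinv (by positivity)
  have hq3 : q ^ (3 * m) = p⁻¹ := by
    rw [hq, ← Real.rpow_natCast, ← Real.rpow_mul (by positivity)]
    push_cast
    rw [one_div, inv_mul_cancel₀ (by positivity), Real.rpow_one]
  have hev : ∀ᶠ n : ℕ in Filter.atTop, ((Module.finrank ℂ (F n) : ℕ) : ℝ) ≤ q ^ n := by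
    filter_upwards [hgrowth.eventually_lt_const hq1, Filter.eventually_ge_atTop 1] with n h1 h2
    have h3 : (((Module.finrank ℂ (F n) : ℕ) : ℝ) ^ (1 / (n : ℝ))) ^ n = ((Module.finrank ℂ (F n) : ℕ) : ℝ) := by
      rw [← Real.rpow_natCast, ← Real.rpow_mul (by positivity), one_div, inv_mul_cancel₀, Real.rpow_one]
      have : (1 : ℝ) ≤ n := by exact_mod_cast h2
      positivity
    rw [← h3]
    exact pow_le_pow_left₀ (by positivity) h1.le n
  have hevm : ∀ᶠ N : ℕ in Filter.atTop, ((Module.finrank ℂ (F (m * N)) : ℕ) : ℝ) ≤ q ^ (m * N) := by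
    have : Filter.Tendsto (fun N : ℕ => m * N) Filter.atTop Filter.atTop :=
      Filter.tendsto_id.const_mul_atTop' (by omega)
    exact this.eventually hev
  have hsmall : ∀ᶠ N : ℕ in Filter.atTop, 28 * p ^ N < ε / (8 * B) := by
    have h1 : Filter.Tendsto (fun N : ℕ => 28 * p ^ N) Filter.atTop (nhds (28 * 0)) :=
      (tendsto_pow_atTop_nhds_zero_of_lt_one hp0.le hp1).const_mul 28
    rw [mul_zero] at h1
    exact h1.eventually_lt_const (by positivity)
  obtain ⟨N, hN1, hN2⟩ := (hevm.and hsmall).exists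
  set D : ℝ := ((Module.finrank ℂ (F (m * N)) : ℕ) : ℝ) with hD
  have hD1 : 1 ≤ D := by
    have hfN := hfin (m * N)
    have h1N : (1 : A) ∈ F (m * N) :=
      hmono (Nat.zero_le _) (by rw [h0]; exact Submodule.mem_span_singleton_self _)
    have : Nontrivial (F (m * N)) := ⟨⟨⟨1, h1N⟩, 0, fun h => one_ne_zero (congrArg Subtype.val h)⟩⟩
    have h2 : 0 < Module.finrank ℂ (F (m * N)) := Module.finrank_pos
    rw [hD]; exact_mod_cast h2
  have hDb : 14 * D ^ 2 * (D + 1) * p ^ (2 * N) ≤ ε / (8 * B) := by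
    have h1 : D ^ 3 ≤ (p⁻¹) ^ N := by
      calc D ^ 3 ≤ (q ^ (m * N)) ^ 3 := pow_le_pow_left₀ (by positivity) hN1 3
        _ = (q ^ (3 * m)) ^ N := by rw [← pow_mul, ← pow_mul]; congr 1; ring
        _ = (p⁻¹) ^ N := by rw [hq3]
    have h2 : 14 * D ^ 2 * (D + 1) ≤ 28 * D ^ 3 := by nlinarith [sq_nonneg D]
    calc 14 * D ^ 2 * (D + 1) * p ^ (2 * N) ≤ 28 * D ^ 3 * p ^ (2 * N) := by gcongr
      _ ≤ 28 * (p⁻¹) ^ N * p ^ (2 * N) := by gcongr
      _ = 28 * p ^ N := by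
          rw [two_mul, pow_add, inv_pow]
          field_simp
      _ ≤ ε / (8 * B) := hN2.le
  -- apply the core theorem to the filtration `F (m * n)`
  obtain ⟨k, φ, ψ, h1, h2, h3, h4, h5⟩ := core (fun n => F (m * n))
    (fun i j hij => hmono (Nat.mul_le_mul_left m hij)) (by simpa using h0)
    (fun i j x hx y hy => by
      have := hmul _ _ x hx y hy
      rwa [← Nat.mul_add] at this)
    (fun n x hx => hstar _ x hx) (fun n => hfin _) N p hp0 hp1 (ε / (8 * B)) (by positivity)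
  refine ⟨k, φ, ψ, h1, h2, h3, h4, ?_⟩
  intro a ha
  have hb1 : b a ∈ F (m * 1) := by rw [mul_one]; exact hbm a ha
  have h6 := h5 (b a) hb1
  have h7 : ‖ψ (φ (b a)) - b a‖ ≤ 3 * ε / 8 := by
    refine h6.trans ?_
    have h8 : (ε / (8 * B) + (1 - p) ^ 2 / (2 * p)
        + 14 * (Module.finrank ℂ (F (m * N))) ^ 2 * (Module.finrank ℂ (F (m * N)) + 1) * p ^ (2 * N))
        ≤ 3 * (ε / (8 * B)) := by linarith
    calc _ ≤ 3 * (ε / (8 * B)) * ‖b a‖ := mul_le_mul_of_nonneg_right h8 (norm_nonneg _)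
      _ ≤ 3 * (ε / (8 * B)) * B := mul_le_mul_of_nonneg_left (hbB a ha) (by positivity)
      _ = 3 * ε / 8 := by field_simp
  have h9 : ψ (φ a) - a = ψ (φ (a - b a)) + (ψ (φ (b a)) - b a) + (b a - a) := by
    rw [map_sub, map_sub]; abel
  rw [h9]
  have h10 : ‖ψ (φ (a - b a))‖ ≤ ‖a - b a‖ := (h4 _).trans (h3 _)
  have h11 := hab a
  calc ‖ψ (φ (a - b a)) + (ψ (φ (b a)) - b a) + (b a - a)‖
      ≤ ‖ψ (φ (a - b a))‖ + ‖ψ (φ (b a)) - b a‖ + ‖b a - a‖ := norm_add₃_le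
    _ < ε := by rw [norm_sub_rev (b a) a]; linarith

end Pool.Agent.S06755
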