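import Pool.Statements.S07181
import Pool.Agent.V5helper14.Halving

set_option autoImplicit false
open Pool Pool.MP_0dd31c_co

namespace Pool.Agent.S07181

open Finset

/-- The combinatorial part: pair up the vertices, colour every pair with both colours at random. -/
theorem main (n : ℕ) (hn : 2 ≤ n) (D : ℕ) (β : ℝ) (hβ : 1 ≤ β)
    (hk : β + (4 * D : ℕ) / β ^ (n - 2) ≤ 2) (F : Finset (Finset ℕ))
    (hF : ∀ A ∈ F, A.card = n) (hdeg : ∀ v : ℕ, (F.filter (fun A => v ∈ A)).card ≤ D) :
    ∃ R : Finset ℕ, R ⊆ F.biUnion id ∧ R.card = (F.biUnion id).card / 2 ∧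
      ∀ A ∈ F, (A ∩ R).Nonempty ∧ ¬ A ⊆ R := by
  classical
  set V := F.biUnion id with hV
  set m := V.card / 2 with hm
  -- the index of a vertex
  obtain ⟨idx, hidx_lt, hidx_inj, hidx_surj⟩ : ∃ idx : ℕ → ℕ, (∀ u ∈ V, idx u < V.card) ∧
      (∀ u ∈ V, ∀ w ∈ V, idx u = idx w → u = w) ∧ (∀ i < V.card, ∃ u ∈ V, idx u = i) := by
    refine ⟨fun u => if h : u ∈ V then (V.equivFin ⟨u, h⟩).val else 0, ?_, ?_, ?_⟩
    · intro u hu
      simp only [hu, dif_pos]
      exact (V.equivFin ⟨u, hu⟩).isLt
    · intro u hu w hw h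
      simp only [hu, hw, dif_pos] at h
      have := V.equivFin.injective (Fin.ext h)
      exact congrArg Subtype.val this
    · intro i hi
      refine ⟨(V.equivFin.symm ⟨i, hi⟩).val, (V.equivFin.symm ⟨i, hi⟩).property, ?_⟩
      simp
  have hAV : ∀ A ∈ F, A ⊆ V := by
    intro A hA u hu
    rw [hV]
    exact Finset.mem_biUnion.2 ⟨A, hA, hu⟩
  -- constraints
  let J := {A : Finset ℕ // A ∈ F ∧ ∀ u ∈ A, ∀ w ∈ A, idx u / 2 = idx w / 2 → u = w} × Bool
  haveI : Finite {A : Finset ℕ // A ∈ F ∧ ∀ u ∈ A, ∀ w ∈ A, idx u / 2 = idx w / 2 → u = w} :=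
    Set.Finite.to_subtype (F.finite_toSet.subset (fun A hA => hA.1))
  haveI : Fintype {A : Finset ℕ // A ∈ F ∧ ∀ u ∈ A, ∀ w ∈ A, idx u / 2 = idx w / 2 → u = w} :=
    Fintype.ofFinite _
  let S : J → Finset (Fin m) := fun j =>
    Finset.univ.filter (fun p => ∃ u ∈ j.1.1, idx u / 2 = p.val)
  let pat : J → Fin m → Bool := fun j p =>
    if ∃ u ∈ j.1.1, idx u = 2 * p.val then j.2 else !j.2
  have hScard : ∀ j, (n - 2) + 1 ≤ (S j).card := by
    intro j
    obtain ⟨⟨A, hA, hinj⟩, b⟩ := j
    have h1 : (A.filter (fun u => idx u / 2 < m)).card ≤ (S (⟨⟨A, hA, hinj⟩, b⟩ : J)).card := by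
      have e1 : ((A.filter (fun u => idx u / 2 < m)).image (fun u => idx u / 2)).card =
          (A.filter (fun u => idx u / 2 < m)).card := by
        apply Finset.card_image_of_injOn
        intro u hu w hw h
        rw [Finset.mem_coe, Finset.mem_filter] at hu hw
        exact hinj u hu.1 w hw.1 h
      have e2 : (A.filter (fun u => idx u / 2 < m)).image (fun u => idx u / 2) ⊆
          (S (⟨⟨A, hA, hinj⟩, b⟩ : J)).map Fin.valEmbedding := by
        intro q hq
        obtain ⟨u, hu, rfl⟩ := Finset.mem_image.1 hq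
        obtain ⟨hu1, hu2⟩ := Finset.mem_filter.1 hu
        rw [Finset.mem_map]
        exact ⟨⟨idx u / 2, hu2⟩, Finset.mem_filter.2 ⟨Finset.mem_univ _, u, hu1, rfl⟩, rfl⟩
      have e3 := Finset.card_le_card e2
      rw [e1, Finset.card_map] at e3
      exact e3
    have h2 : (A.filter (fun u => ¬ idx u / 2 < m)).card ≤ 1 := by
      rw [Finset.card_le_one]
      intro u hu w hw
      obtain ⟨hu1, hu2⟩ := Finset.mem_filter.1 hu
      obtain ⟨hw1, hw2⟩ := Finset.mem_filter.1 hw
      have l1 := hidx_lt u (hAV A hA hu1)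
      have l2 := hidx_lt w (hAV A hA hw1)
      apply hinj u hu1 w hw1
      omega
    have h3 := Finset.card_filter_add_card_filter_not (s := A) (fun u => idx u / 2 < m)
    have h4 := hF A hA
    omega
  have hSD : ∀ p : Fin m, (Finset.univ.filter (fun j : J => p ∈ S j)).card ≤ 4 * D := by
    intro p
    have hp : 2 * p.val + 1 < V.card := by
      have := p.isLt
      omega
    obtain ⟨u0, hu0V, hu0⟩ := hidx_surj (2 * p.val) (by omega)
    obtain ⟨u1, hu1V, hu1⟩ := hidx_surj (2 * p.val + 1) hp
    have h1 : (Finset.univ.filter (fun j : J => p ∈ S j)).card ≤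
        (((F.filter (fun A => u0 ∈ A)) ∪ (F.filter (fun A => u1 ∈ A))) ×ˢ
          (Finset.univ : Finset Bool)).card := by
      refine Finset.card_le_card_of_injOn (fun j => (j.1.1, j.2)) ?_ ?_
      · rintro ⟨⟨A, hA, hinj⟩, b⟩ hj
        simp only [S, Finset.coe_filter, Finset.mem_univ, true_and, Finset.mem_filter] at hj
        obtain ⟨u, hu, hup⟩ := hj
        simp only [Finset.coe_product, Finset.coe_union, Finset.coe_univ, Set.mem_prod,
          Set.mem_univ, and_true, Set.mem_union, Finset.mem_coe, Finset.mem_filter]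
        have huV := hAV A hA hu
        have : idx u = 2 * p.val ∨ idx u = 2 * p.val + 1 := by omega
        rcases this with h | h
        · left
          refine ⟨hA, ?_⟩
          rw [hidx_inj u0 hu0V u huV (by rw [hu0, h])]
          exact hu
        · right
          refine ⟨hA, ?_⟩
          rw [hidx_inj u1 hu1V u huV (by rw [hu1, h])]
          exact hu
      · rintro ⟨⟨A, hA⟩, b⟩ _ ⟨⟨A', hA'⟩, b'⟩ _ h
        simp only [Prod.mk.injEq] at h
        obtain ⟨rfl, rfl⟩ := h
        rfl
    refine h1.trans ?_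
    rw [Finset.card_product]
    have h2 := Finset.card_union_le (F.filter (fun A => u0 ∈ A)) (F.filter (fun A => u1 ∈ A))
    have h3 := hdeg u0
    have h4 := hdeg u1
    simp only [Finset.card_univ, Fintype.card_bool]
    omega
  obtain ⟨x, hx⟩ := Pool.Agent.V5helper14.Halving.exists_avoid S pat β (n - 2) (4 * D) hβ
    hScard hSD hk
  -- the red set
  let red : ℕ → Prop := fun u => ∃ p : Fin m, idx u / 2 = p.val ∧
    ((x p = true ∧ idx u = 2 * p.val) ∨ (x p = false ∧ idx u = 2 * p.val + 1))
  refine ⟨V.filter red, Finset.filter_subset _ _, ?_, ?_⟩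
  · -- cardinality
    have h1 : (V.filter red).card = (Finset.univ : Finset (Fin m)).card := by
      have : ∀ u ∈ V.filter red, ∃ p : Fin m, idx u / 2 = p.val ∧
        ((x p = true ∧ idx u = 2 * p.val) ∨ (x p = false ∧ idx u = 2 * p.val + 1)) := by
        intro u hu
        exact (Finset.mem_filter.1 hu).2
      refine Finset.card_bij (fun u hu => (this u hu).choose) ?_ ?_ ?_
      · intro u hu
        exact Finset.mem_univ _
      · intro u hu w hw h
        have hu' := (this u hu).choose_spec
        have hw' := (this w hw).choose_spec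
        rw [← h] at hw'
        apply hidx_inj u (Finset.mem_filter.1 hu).1 w (Finset.mem_filter.1 hw).1
        rcases hu'.2 with ⟨a1, a2⟩ | ⟨a1, a2⟩ <;> rcases hw'.2 with ⟨b1, b2⟩ | ⟨b1, b2⟩
        · rw [a2, b2]
        · rw [a1] at b1; cases b1
        · rw [a1] at b1; cases b1
        · rw [a2, b2]
      · intro p _
        have hp : 2 * p.val + 1 < V.card := by
          have := p.isLt
          omega
        have key : ∃ u ∈ V, (x p = true ∧ idx u = 2 * p.val) ∨
            (x p = false ∧ idx u = 2 * p.val + 1) := by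
          rcases hxp : x p with _ | _
          · obtain ⟨u, huV, hu⟩ := hidx_surj (2 * p.val + 1) hp
            exact ⟨u, huV, Or.inr ⟨rfl, hu⟩⟩
          · obtain ⟨u, huV, hu⟩ := hidx_surj (2 * p.val) (by omega)
            exact ⟨u, huV, Or.inl ⟨rfl, hu⟩⟩
        obtain ⟨u, huV, hu⟩ := key
        have hup : idx u / 2 = p.val := by
          rcases hu with ⟨_, h⟩ | ⟨_, h⟩ <;> omega
        have hmem : u ∈ V.filter red := Finset.mem_filter.2 ⟨huV, p, hup, hu⟩
        refine ⟨u, hmem, ?_⟩
        have := (this u hmem).choose_spec.1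
        apply Fin.ext
        rw [← this, hup]
    rw [h1]
    simp
  · intro A hA
    have hmemR : ∀ u ∈ A, (u ∈ V.filter red ↔ red u) := by
      intro u hu
      rw [Finset.mem_filter]
      exact ⟨fun h => h.2, fun h => ⟨hAV A hA hu, h⟩⟩
    suffices h : (∃ u ∈ A, red u) ∧ ∃ u ∈ A, ¬ red u by
      obtain ⟨⟨u, hu, hr⟩, ⟨w, hw, hnr⟩⟩ := h
      refine ⟨⟨u, Finset.mem_inter.2 ⟨hu, (hmemR u hu).2 hr⟩⟩, fun hsub => ?_⟩
      exact hnr ((hmemR w hw).1 (hsub hw))
    by_cases hinj : ∀ u ∈ A, ∀ w ∈ A, idx u / 2 = idx w / 2 → u = w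
    · constructor
      · -- some vertex is red: use the constraint (A, false)
        obtain ⟨p, hp, hne⟩ := hx ⟨⟨A, hA, hinj⟩, false⟩
        simp only [S, Finset.mem_filter, Finset.mem_univ, true_and] at hp
        obtain ⟨u, hu, hup⟩ := hp
        refine ⟨u, hu, p, hup, ?_⟩
        by_cases h0 : idx u = 2 * p.val
        · left
          refine ⟨?_, h0⟩
          have : ∃ u ∈ A, idx u = 2 * p.val := ⟨u, hu, h0⟩
          simp only [pat, this, if_true] at hne
          simpa using hne
        · right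
          refine ⟨?_, by omega⟩
          have : ¬ ∃ u ∈ A, idx u = 2 * p.val := by
            rintro ⟨w, hw, hw0⟩
            have := hinj u hu w hw (by omega)
            rw [this] at h0
            exact h0 hw0
          simp only [pat, this, if_false] at hne
          simpa using hne
      · obtain ⟨p, hp, hne⟩ := hx ⟨⟨A, hA, hinj⟩, true⟩
        simp only [S, Finset.mem_filter, Finset.mem_univ, true_and] at hp
        obtain ⟨u, hu, hup⟩ := hp
        refine ⟨u, hu, ?_⟩
        rintro ⟨q, hq, hqc⟩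
        have hqp : q = p := Fin.ext (by rw [← hq, hup])
        subst hqp
        by_cases h0 : idx u = 2 * q.val
        · have : ∃ u ∈ A, idx u = 2 * q.val := ⟨u, hu, h0⟩
          simp only [pat, this, if_true] at hne
          rcases hqc with ⟨h1, _⟩ | ⟨_, h1⟩
          · exact hne h1
          · omega
        · have : ¬ ∃ u ∈ A, idx u = 2 * q.val := by
            rintro ⟨w, hw, hw0⟩
            have := hinj u hu w hw (by omega)
            rw [this] at h0
            exact h0 hw0
          simp only [pat, this, if_false] at hne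
          rcases hqc with ⟨_, h1⟩ | ⟨h1, _⟩
          · exact h0 h1
          · exact hne (by simpa using h1)
    · push Not at hinj
      obtain ⟨u, hu, w, hw, huw, hne⟩ := hinj
      have huV := hAV A hA hu
      have hwV := hAV A hA hw
      have l1 := hidx_lt u huV
      have l2 := hidx_lt w hwV
      have hne' : idx u ≠ idx w := fun h => hne (hidx_inj u huV w hwV h)
      -- order them
      have key : ∀ u ∈ A, ∀ w ∈ A, idx u < V.card → idx w < V.card → idx u / 2 = idx w / 2 →
          idx u < idx w → (∃ u ∈ A, red u) ∧ ∃ u ∈ A, ¬ red u := by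
        intro u hu w hw l1 l2 huw hlt
        have hpm : idx u / 2 < m := by omega
        set p : Fin m := ⟨idx u / 2, hpm⟩ with hp
        have hu0 : idx u = 2 * p.val := by
          simp only [hp]; omega
        have hw1 : idx w = 2 * p.val + 1 := by
          simp only [hp]; omega
        rcases hxp : x p with _ | _
        · refine ⟨⟨w, hw, p, by omega, Or.inr ⟨hxp, hw1⟩⟩, ⟨u, hu, ?_⟩⟩
          rintro ⟨q, hq, hqc⟩
          have hqp : q = p := Fin.ext (by rw [← hq])
          subst hqp
          rcases hqc with ⟨h1, _⟩ | ⟨_, h1⟩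
          · rw [hxp] at h1; cases h1
          · omega
        · refine ⟨⟨u, hu, p, by omega, Or.inl ⟨hxp, hu0⟩⟩, ⟨w, hw, ?_⟩⟩
          rintro ⟨q, hq, hqc⟩
          have hqp : q = p := Fin.ext (by rw [← hq, ← huw])
          subst hqp
          rcases hqc with ⟨_, h1⟩ | ⟨h1, _⟩
          · omega
          · rw [hxp] at h1; cases h1
      rcases lt_or_gt_of_ne hne' with h | h
      · exact key u hu w hw l1 l2 huw h
      · exact key w hw u hu l2 l1 huw.symm h

/-- For every c in (1,2) there is n0 such that for n ≥ n0 every n-uniform finite hypergraph with all degrees at most c^n has a red set of exactly half (floor) of its vertices such that no edge is all red or all blue. -/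
theorem result :
    ∀ c : ℝ, 1 < c → c < 2 →
      ∃ n₀ : ℕ, ∀ n : ℕ, n₀ ≤ n →
        ∀ F : Finset (Finset ℕ),
          (∀ A ∈ F, A.card = n) →
          (∀ v : ℕ, ((F.filter (fun A => v ∈ A)).card : ℝ) ≤ c ^ n) →
          ∃ R : Finset ℕ, R ⊆ F.biUnion id ∧
            R.card = (F.biUnion id).card / 2 ∧
            ∀ A ∈ F, (A ∩ R).Nonempty ∧ ¬ A ⊆ R := by
  intro c hc1 hc2
  set β : ℝ := (c + 2) / 2 with hβ
  have hβc : c < β := by rw [hβ]; linarith
  have hβ2 : β < 2 := by rw [hβ]; linarith
  have hβ0 : 0 < β := by linarith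
  have hr1 : c / β < 1 := (div_lt_one hβ0).2 hβc
  have hr0 : 0 ≤ c / β := by positivity
  have hlim : Filter.Tendsto (fun n : ℕ => 4 * β ^ 2 * (c / β) ^ n) Filter.atTop (nhds 0) := by
    have := (tendsto_pow_atTop_nhds_zero_of_lt_one hr0 hr1).const_mul (4 * β ^ 2)
    simpa using this
  have hev := hlim.eventually (gt_mem_nhds (show (0:ℝ) < 2 - β by linarith))
  obtain ⟨N, hN⟩ := Filter.eventually_atTop.1 hev
  refine ⟨max N 2, ?_⟩
  intro n hn F hF hdeg
  have hnN : N ≤ n := le_trans (le_max_left _ _) hn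
  have hn2 : 2 ≤ n := le_trans (le_max_right _ _) hn
  have h1 := hN n hnN
  have hcn : (0:ℝ) ≤ c ^ n := by positivity
  refine main n hn2 ⌊c ^ n⌋₊ β (by linarith) ?_ F hF ?_
  · have h2 : ((4 * ⌊c ^ n⌋₊ : ℕ) : ℝ) ≤ 4 * c ^ n := by
      push_cast
      have := Nat.floor_le hcn
      linarith
    have h3 : ((4 * ⌊c ^ n⌋₊ : ℕ) : ℝ) / β ^ (n - 2) ≤ 4 * c ^ n / β ^ (n - 2) := by
      gcongr
    have h4 : 4 * c ^ n / β ^ (n - 2) = 4 * β ^ 2 * (c / β) ^ n := by
      have h5 : β ^ n = β ^ (n - 2) * β ^ 2 := by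
        rw [← pow_add]
        congr 1
        omega
      have h6 : (c / β) ^ n = c ^ n / β ^ n := div_pow _ _ _
      rw [h6, h5]
      field_simp
    rw [h4] at h3
    linarith
  · intro v
    exact Nat.le_floor (hdeg v)

end Pool.Agent.S07181
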