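import Pool.Statements.S07193
import Pool.Agent.W31.JP.Win

set_option autoImplicit false
open Pool Pool.MP_0efbd6_co

namespace Pool.Agent.S07193

/-- There is c>0 such that for infinitely many m, every graph with m edges has a vertex bipartition where each part spans fewer than m/4 + sqrt(m/32) - c m^(1/4) edges. -/
theorem result :
    ∃ c : ℝ, 0 < c ∧ ∀ N : ℕ, ∃ m : ℕ, N ≤ m ∧
      ∀ (n : ℕ) (G : SimpleGraph (Fin n)) [DecidableRel G.Adj],
        ((Finset.univ : Finset (Fin n × Fin n)).filter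
            (fun p => p.1 < p.2 ∧ G.Adj p.1 p.2)).card = m →
        ∃ S : Finset (Fin n),
          (((max ((Finset.univ : Finset (Fin n × Fin n)).filter
                (fun p => p.1 < p.2 ∧ G.Adj p.1 p.2 ∧ p.1 ∈ S ∧ p.2 ∈ S)).card
              ((Finset.univ : Finset (Fin n × Fin n)).filter
                (fun p => p.1 < p.2 ∧ G.Adj p.1 p.2 ∧ p.1 ∉ S ∧ p.2 ∉ S)).card : ℕ) : ℝ)
            < (m : ℝ) / 4 + Real.sqrt ((m : ℝ) / 32) - c * (m : ℝ) ^ ((1 : ℝ) / 4)) := by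
  refine ⟨1 / 20000, by norm_num, fun N => ?_⟩
  set l := 2000 + N with hl
  have hlN : N ≤ l * (2 * l - 1) := by
    have h1 : 1 ≤ 2 * l - 1 := by omega
    calc N ≤ l * 1 := by omega
      _ ≤ l * (2 * l - 1) := Nat.mul_le_mul_left _ h1
  refine ⟨l * (2 * l - 1), hlN, ?_⟩
  intro n G _ hm
  obtain ⟨S, hS⟩ := Pool.Agent.W31.JP.main_window (l := l) (m := l * (2 * l - 1)) (by omega)
    le_rfl (Nat.le_add_right _ _) n G hm
  refine ⟨S, lt_of_lt_of_le hS ?_⟩
  have hm1 : (1 : ℝ) ≤ ((l * (2 * l - 1) : ℕ) : ℝ) := by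
    have h1 : 1 ≤ 2 * l - 1 := by omega
    have h2 : 1 ≤ l := by omega
    exact_mod_cast Nat.mul_pos h2 h1
  have hpow : (((l * (2 * l - 1) : ℕ) : ℝ)) ^ ((1 : ℝ) / 4)
      ≤ Real.sqrt ((l * (2 * l - 1) : ℕ) : ℝ) := by
    rw [Real.sqrt_eq_rpow]
    exact Real.rpow_le_rpow_of_exponent_le hm1 (by norm_num)
  linarith

end Pool.Agent.S07193
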