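import Pool.Statements.S09874

set_option autoImplicit false
open Pool Pool.MP_85fffe_co

namespace Pool.Agent.S09874

/-- The set `{0, ..., 2h}` without its midpoint `h`. -/
noncomputable def X (h : ℕ) : Finset ℝ :=
  ((Finset.range (2 * h + 1)).erase h).image (fun n : ℕ => (n : ℝ))

/-- The pattern `{0, h+1} ∪ W`. -/
noncomputable def P (h : ℕ) (W : Finset ℕ) : Finset ℝ :=
  (insert 0 (insert (h + 1) W)).image (fun n : ℕ => (n : ℝ))

theorem mem_X {h : ℕ} {x : ℝ} : x ∈ X h ↔ ∃ n : ℕ, n ≤ 2 * h ∧ n ≠ h ∧ (n : ℝ) = x := by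
  unfold X
  simp only [Finset.mem_image, Finset.mem_erase, Finset.mem_range]
  constructor
  · rintro ⟨n, ⟨h1, h2⟩, h3⟩
    exact ⟨n, by omega, h1, h3⟩
  · rintro ⟨n, h1, h2, h3⟩
    exact ⟨n, ⟨h2, by omega⟩, h3⟩

theorem mem_P {h : ℕ} {W : Finset ℕ} {x : ℝ} :
    x ∈ P h W ↔ ∃ n : ℕ, (n = 0 ∨ n = h + 1 ∨ n ∈ W) ∧ (n : ℝ) = x := by
  unfold P
  simp only [Finset.mem_image, Finset.mem_insert]

theorem natCast_mem_P {h : ℕ} {W : Finset ℕ} {n : ℕ} :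
    (n : ℝ) ∈ P h W ↔ (n = 0 ∨ n = h + 1 ∨ n ∈ W) := by
  rw [mem_P]
  constructor
  · rintro ⟨m, hm, he⟩
    have : m = n := by exact_mod_cast he
    exact this ▸ hm
  · intro hn
    exact ⟨n, hn, rfl⟩

theorem natCast_mem_X {h n : ℕ} : (n : ℝ) ∈ X h ↔ (n ≤ 2 * h ∧ n ≠ h) := by
  rw [mem_X]
  constructor
  · rintro ⟨m, h1, h2, he⟩
    have : m = n := by exact_mod_cast he
    exact this ▸ ⟨h1, h2⟩
  · intro hn
    exact ⟨n, hn.1, hn.2, rfl⟩

/-- Translates by `h - n`, `1 ≤ n ≤ h`, `n ∉ W`. -/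
theorem shift_subset {h : ℕ} {W : Finset ℕ} (hW : W ⊆ Finset.Ico 2 h) {n : ℕ} (h1 : 1 ≤ n)
    (h2 : n ≤ h) (hn : n ∉ W) : (P h W).image (· + ((h : ℝ) - n)) ⊆ X h := by
  intro x hx
  rw [Finset.mem_image] at hx
  obtain ⟨a, ha, rfl⟩ := hx
  obtain ⟨m, hm, rfl⟩ := mem_P.1 ha
  have he : ((m : ℝ) + ((h : ℝ) - n)) = ((m + (h - n) : ℕ) : ℝ) := by
    rw [Nat.cast_add, Nat.cast_sub h2]
  show ((m : ℝ) + ((h : ℝ) - n)) ∈ X h
  rw [he, natCast_mem_X]
  rcases hm with rfl | rfl | hm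
  · constructor <;> omega
  · constructor <;> omega
  · have := Finset.mem_Ico.1 (hW hm)
    have hne : m ≠ n := fun e => hn (e ▸ hm)
    constructor <;> omega

theorem pattern {h : ℕ} (hh : 3 ≤ h) {W : Finset ℕ} (hW : W ⊆ Finset.Ico 2 h) :
    (P h W).Nonempty ∧ P h W ⊆ X h ∧
        (∃ t : ℝ, t ≠ 0 ∧ (P h W).image (· + t) ⊆ X h) ∧
        (∀ B : Finset ℝ, P h W ⊂ B →
          ¬ (∀ t : ℝ, (P h W).image (· + t) ⊆ X h → B.image (· + t) ⊆ X h)) := by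
  have h1W : (1 : ℕ) ∉ W := fun h1 => by
    have := Finset.mem_Ico.1 (hW h1); omega
  have hhW : h ∉ W := fun h1 => by
    have := Finset.mem_Ico.1 (hW h1); omega
  refine ⟨⟨((0 : ℕ) : ℝ), natCast_mem_P.2 (Or.inl rfl)⟩, ?_, ?_, ?_⟩
  · intro x hx
    obtain ⟨m, hm, rfl⟩ := mem_P.1 hx
    rw [natCast_mem_X]
    rcases hm with rfl | rfl | hm
    · constructor <;> omega
    · constructor <;> omega
    · have := Finset.mem_Ico.1 (hW hm)
      constructor <;> omega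
  · refine ⟨(h : ℝ) - (1 : ℕ), ?_, shift_subset hW le_rfl (by omega) h1W⟩
    have : (3 : ℝ) ≤ h := by exact_mod_cast hh
    push_cast
    intro h0
    linarith
  · intro B hB H
    obtain ⟨b, hbB, hbP⟩ := Finset.exists_of_ssubset hB
    have key : ∀ n : ℕ, 1 ≤ n → n ≤ h → n ∉ W → b + ((h : ℝ) - n) ∈ X h := by
      intro n h1 h2 hn
      apply H _ (shift_subset hW h1 h2 hn)
      exact Finset.mem_image.2 ⟨b, hbB, rfl⟩
    have hb := key h (by omega) le_rfl hhW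
    rw [sub_self, add_zero] at hb
    obtain ⟨n, hn1, hn2, rfl⟩ := mem_X.1 hb
    rw [natCast_mem_P] at hbP
    push Not at hbP
    obtain ⟨hn0, hnh, hnW⟩ := hbP
    have hb1 := key 1 le_rfl (by omega) h1W
    have he : ((n : ℝ) + ((h : ℝ) - (1 : ℕ))) = ((n + (h - 1) : ℕ) : ℝ) := by
      rw [Nat.cast_add, Nat.cast_sub (by omega)]
    rw [he, natCast_mem_X] at hb1
    have hb2 := key n (by omega) (by omega) hnW
    have he2 : ((n : ℝ) + ((h : ℝ) - (n : ℕ))) = ((h : ℕ) : ℝ) := by ring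
    rw [he2, natCast_mem_X] at hb2
    exact hb2.2 rfl

theorem P_injOn (h : ℕ) : Set.InjOn (P h) ((Finset.Ico 2 h).powerset : Set (Finset ℕ)) := by
  intro W1 hW1 W2 hW2 he
  rw [Finset.mem_coe, Finset.mem_powerset] at hW1 hW2
  have key : ∀ W W' : Finset ℕ, W ⊆ Finset.Ico 2 h → P h W = P h W' → W ⊆ W' := by
    intro W W' hW he n hn
    have h1 : (n : ℝ) ∈ P h W' := he ▸ natCast_mem_P.2 (Or.inr (Or.inr hn))
    rw [natCast_mem_P] at h1
    have := Finset.mem_Ico.1 (hW hn)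
    rcases h1 with h1 | h1 | h1
    · omega
    · omega
    · exact h1
  exact Finset.Subset.antisymm (key _ _ hW1 he) (key _ _ hW2 he.symm)

theorem card_bound (h : ℕ) (hh : 3 ≤ h) (C : ℕ)
    (H : ∀ X : Finset ℝ, ∀ S : Finset (Finset ℝ),
      (∀ A ∈ S,
        A.Nonempty ∧ A ⊆ X ∧
        (∃ t : ℝ, t ≠ 0 ∧ A.image (· + t) ⊆ X) ∧
        (∀ B : Finset ℝ, A ⊂ B →
          ¬ (∀ t : ℝ, A.image (· + t) ⊆ X → B.image (· + t) ⊆ X))) →
      (∀ A ∈ S, ∀ B ∈ S, ∀ t : ℝ, B = A.image (· + t) → A = B) →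
      S.card ≤ C * X.card) : 2 ^ (h - 2) ≤ C * (2 * h) := by
  have h1 := H (X h) ((Finset.Ico 2 h).powerset.image (P h)) ?_ ?_
  · rw [Finset.card_image_of_injOn (P_injOn h), Finset.card_powerset, Nat.card_Ico] at h1
    refine h1.trans (Nat.mul_le_mul_left _ ?_)
    unfold X
    refine Finset.card_image_le.trans ?_
    rw [Finset.card_erase_of_mem (Finset.mem_range.2 (by omega)), Finset.card_range]
    omega
  · intro A hA
    obtain ⟨W, hW, rfl⟩ := Finset.mem_image.1 hA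
    exact pattern hh (Finset.mem_powerset.1 hW)
  · intro A hA B hB t ht
    obtain ⟨W1, hW1, rfl⟩ := Finset.mem_image.1 hA
    obtain ⟨W2, hW2, rfl⟩ := Finset.mem_image.1 hB
    have h0 : ((0 : ℕ) : ℝ) ∈ P h W2 := natCast_mem_P.2 (Or.inl rfl)
    have h0' : ((0 : ℕ) : ℝ) ∈ P h W1 := natCast_mem_P.2 (Or.inl rfl)
    have ht1 : ((0 : ℕ) : ℝ) + t ∈ P h W2 := ht ▸ Finset.mem_image.2 ⟨_, h0', rfl⟩
    rw [ht] at h0
    obtain ⟨a, ha, hat⟩ := Finset.mem_image.1 h0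
    obtain ⟨m, -, rfl⟩ := mem_P.1 ha
    obtain ⟨k, -, hk⟩ := mem_P.1 ht1
    have hm0 : (0 : ℝ) ≤ m := Nat.cast_nonneg m
    have hk0 : (0 : ℝ) ≤ k := Nat.cast_nonneg k
    push_cast at hat hk
    have ht0 : t = 0 := by linarith
    rw [ht, ht0]
    simp

/-- The negation of the preceding statement: There is a constant C such that for every finite set X of n reals, any family of maximally repeated patterns of X, no two of which are translates of each other, has at most C·n members. -/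
theorem result :
    ¬ (∃ C : ℕ, ∀ X : Finset ℝ, ∀ S : Finset (Finset ℝ),
      (∀ A ∈ S,
        A.Nonempty ∧ A ⊆ X ∧
        (∃ t : ℝ, t ≠ 0 ∧ A.image (· + t) ⊆ X) ∧
        (∀ B : Finset ℝ, A ⊂ B →
          ¬ (∀ t : ℝ, A.image (· + t) ⊆ X → B.image (· + t) ⊆ X))) →
      (∀ A ∈ S, ∀ B ∈ S, ∀ t : ℝ, B = A.image (· + t) → A = B) →
      S.card ≤ C * X.card) := by
  rintro ⟨C, H⟩
  have h1 := card_bound (2 * (4 * C + 8) + 2) (by omega) C H
  have h2 : 2 * (4 * C + 8) + 2 - 2 = 2 * (4 * C + 8) := by omega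
  rw [h2, two_mul, pow_add] at h1
  have h3 : 4 * C + 8 + 1 ≤ 2 ^ (4 * C + 8) := Nat.lt_two_pow_self
  have h4 : (4 * C + 8 + 1) * (4 * C + 8 + 1) ≤ 2 ^ (4 * C + 8) * 2 ^ (4 * C + 8) :=
    Nat.mul_le_mul h3 h3
  have h5 := h4.trans h1
  nlinarith

end Pool.Agent.S09874
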