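import Pool.Statements.S10718
import Pool.Agent.V5helper6.Polygon2

set_option autoImplicit false
open Pool Pool.MP_ab53bf_co

namespace Pool.Agent.S10718


open Set Pool.Agent.Helper337.PolygonPattern Pool.Agent.V5helper6.Polygon2

theorem rot (i : Fin 14) : finRotate 14 i = i + 1 := by
  exact finRotate_apply i

theorem rotSymm (i : Fin 14) : (finRotate 14).symm i = i - 1 := by
  rw [Equiv.symm_apply_eq, rot, sub_add_cancel]

theorem cyc_forward (ρ : ZMod 14 → ZMod 14) (h : ∀ i, ρ (i + 1) = ρ i + 1) :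
    ∀ i, ρ i = ρ 0 + i := by
  have h' : ∀ k : ℕ, ρ (k : ZMod 14) = ρ 0 + (k : ZMod 14) := by
    intro k
    induction k with
    | zero => simp
    | succ k ih => rw [Nat.cast_succ, h, ih, add_assoc]
  intro i
  have := h' i.val
  rwa [ZMod.natCast_zmod_val] at this

theorem cyc_backward (ρ : ZMod 14 → ZMod 14) (h : ∀ i, ρ (i + 1) = ρ i - 1) :
    ∀ i, ρ i = ρ 0 - i := by
  have h' : ∀ k : ℕ, ρ (k : ZMod 14) = ρ 0 - (k : ZMod 14) := by
    intro k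
    induction k with
    | zero => simp
    | succ k ih => rw [Nat.cast_succ, h, ih, sub_sub]
  intro i
  have := h' i.val
  rwa [ZMod.natCast_zmod_val] at this

/-- The negation of the preceding statement: If two ordinary proper n-gons have the same pattern and some dihedral relabelling of the second makes corresponding edges same-direction parallel, then some such relabelling admits a continuous deformation of the first into it keeping the pattern and all edge directions. -/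
theorem result :
    ¬ (∀ (n : ℕ), 3 ≤ n →
  ∀ (Edge : (Fin n → ℝ × ℝ) → Fin n → Set (ℝ × ℝ)),
    (∀ x i, Edge x i = segment ℝ (x i) (x (finRotate n i))) →
  ∀ (Pend : (Fin n → ℝ × ℝ) → ℝ → Fin n → ℝ × ℝ),
    (∀ x ε i, Pend x ε i = x i + ε • ((2:ℝ) • x i - x ((finRotate n).symm i) - x (finRotate n i))) →
  ∀ (Ordinary : (Fin n → ℝ × ℝ) → Prop),
    (∀ x, Ordinary x ↔ ∀ (p : ℝ × ℝ) (i j k : Fin n), p ∈ Edge x i → p ∈ Edge x j → p ∈ Edge x k →
      i = j ∨ j = k ∨ i = k) →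
  ∀ (Proper : (Fin n → ℝ × ℝ) → Prop),
    (∀ x, Proper x ↔ (∀ i, x i ≠ x (finRotate n i)) ∧
      ∀ i, ¬ Collinear ℝ ({x ((finRotate n).symm i), x i, x (finRotate n i)} : Set (ℝ × ℝ))) →
  ∀ (MapSet : (Fin n → ℝ × ℝ) → ℝ → Set (ℝ × ℝ)),
    (∀ x ε, MapSet x ε = (⋃ i, Edge x i) ∪ ⋃ i, segment ℝ (x i) (Pend x ε i)) →
  ∀ (Nodes : (Fin n → ℝ × ℝ) → ℝ → Set (ℝ × ℝ)),
    (∀ x ε, Nodes x ε = Set.range x ∪ {p : ℝ × ℝ | ∃ i j, i ≠ j ∧ p ∈ Edge x i ∧ p ∈ Edge x j}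
      ∪ Set.range (Pend x ε)) →
  ∀ (SamePattern : (Fin n → ℝ × ℝ) → (Fin n → ℝ × ℝ) → Prop),
    (∀ x y, SamePattern x y ↔ ∃ δ : ℝ, 0 < δ ∧ ∀ ε₁ ε₂ : ℝ, 0 < ε₁ → ε₁ < δ → 0 < ε₂ → ε₂ < δ →
      ∃ h : Homeomorph (ℝ × ℝ) (ℝ × ℝ), h '' MapSet x ε₁ = MapSet y ε₂ ∧ h '' Nodes x ε₁ = Nodes y ε₂) →
  ∀ (Dihedral : Equiv.Perm (Fin n) → Prop),
    (∀ σ, Dihedral σ ↔ (∀ i, σ (finRotate n i) = finRotate n (σ i)) ∨
      (∀ i, σ (finRotate n i) = (finRotate n).symm (σ i))) →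
  ∀ (Parallel : (Fin n → ℝ × ℝ) → (Fin n → ℝ × ℝ) → Prop),
    (∀ x z, Parallel x z ↔ ∀ i, ∃ c : ℝ, 0 < c ∧ z (finRotate n i) - z i = c • (x (finRotate n i) - x i)) →
  ∀ x y : Fin n → ℝ × ℝ,
    Ordinary x → Proper x → Ordinary y → Proper y → SamePattern x y →
    (∃ σ : Equiv.Perm (Fin n), Dihedral σ ∧ Parallel x (fun i => y (σ i))) →
    ∃ σ : Equiv.Perm (Fin n), Dihedral σ ∧ Parallel x (fun i => y (σ i)) ∧
      ∃ X : ℝ → Fin n → ℝ × ℝ,
        (∀ j, ContinuousOn (fun t => X t j) (Set.Icc (0:ℝ) 1)) ∧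
        X 0 = x ∧ X 1 = (fun i => y (σ i)) ∧
        ∀ t ∈ Set.Icc (0:ℝ) 1,
          Ordinary (X t) ∧ Proper (X t) ∧ SamePattern x (X t) ∧ Parallel x (X t)) := by
  intro H
  have H' := H 14 (by norm_num)
    (fun x i => segment ℝ (x i) (x (finRotate 14 i))) (fun _ _ => rfl)
    (fun x ε i => x i + ε • ((2:ℝ) • x i - x ((finRotate 14).symm i) - x (finRotate 14 i)))
    (fun _ _ _ => rfl)
    _ (fun _ => Iff.rfl) _ (fun _ => Iff.rfl) _ (fun _ _ => rfl) _ (fun _ _ => rfl)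
    _ (fun _ _ => Iff.rfl) _ (fun _ => Iff.rfl) _ (fun _ _ => Iff.rfl)
    (xx : Fin 14 → ℝ × ℝ) (yy : Fin 14 → ℝ × ℝ)
  simp only [rot, rotSymm] at H'
  obtain ⟨δ, hδ, hpat⟩ := pattern_xy
  have conv : ∀ x : Fin 14 → ℝ × ℝ, (∀ (p : ℝ × ℝ) (i j k : Fin 14),
      p ∈ segment ℝ (x i) (x (i + 1)) → p ∈ segment ℝ (x j) (x (j + 1)) →
      p ∈ segment ℝ (x k) (x (k + 1)) → i = j ∨ j = k ∨ i = k) ↔
      Pool.Agent.Helper337.PolygonPattern.Ordinary (n := 14) x := by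
    intro x
    constructor
    · intro h p i j k hij hjk hik hh
      rcases h p i j k hh.1 hh.2.1 hh.2.2 with h | h | h
      · exact hij h
      · exact hjk h
      · exact hik h
    · intro h p i j k hi hj hk
      by_contra hcon
      push Not at hcon
      exact h p i j k hcon.1 hcon.2.1 hcon.2.2 ⟨hi, hj, hk⟩
  obtain ⟨σ, hσ, hpar, X, hc, h0, h1, hX⟩ := H' ((conv _).2 ordinaryX) ⟨polyX, properX⟩
    ((conv _).2 ordinaryY) ⟨polyY, properY⟩
    ⟨δ, hδ, fun a b ha0 ha1 hb0 hb1 => hpat a b ha0 ha1 hb0 hb1⟩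
    ⟨Equiv.refl _, Or.inl (fun i => rfl), parallel_xy⟩
  have hrel : IsRelabelling (n := 14) σ := by
    refine ⟨σ 0, ?_⟩
    rcases hσ with h | h
    · exact Or.inl (cyc_forward σ h)
    · exact Or.inr (cyc_backward σ h)
  obtain ⟨t, ht, hno⟩ := no_ordinary_path σ hrel hpar X hc h0 h1 (fun t ht => (hX t ht).2.2.2)
  exact hno ((conv _).1 (hX t ht).1)

end Pool.Agent.S10718
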