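import Pool.Statements.S11885

set_option autoImplicit false
open Classical
open Pool Pool.MP_dd5ef2_co

namespace Pool.Agent.S11885

/-! Idea: the factor of the pair `i j` is the probability that a random third vertex `k` gives an even
triple. For a random sequence `R` of boundedly many vertices these probabilities are approximated, for
all pairs on average, by the fraction of `k` in `R`, which depends only on the edges between
`R` and the other vertices and on the pair `i j` itself. For fixed edges at `R` (there are only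
`2 ^ O(n)` possibilities) the sum over all graphs of the product of the approximate factors is a
product over all pairs of sums `q + (1 - q)`. -/

/-- the pairs -/
abbrev Q (n : ℕ) := {p : Fin n × Fin n // p.1 < p.2}

lemma prod_pairs {n : ℕ} (H : Fin n → Fin n → ℝ) :
    ∏ i : Fin n, ∏ j : Fin n, (if i < j then H i j else 1) = ∏ p : Q n, H p.1.1 p.1.2 := by
  rw [← Finset.prod_product', Finset.univ_product_univ, ← Finset.prod_filter]
  exact Finset.prod_subtype _ (by simp) (fun p : Fin n × Fin n => H p.1 p.2)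

lemma sum_graph_le {n : ℕ} (F : Q n → Bool → ℝ) (hF : ∀ p b, 0 ≤ F p b) :
    ∑ G : SimpleGraph (Fin n), ∏ p : Q n, F p (decide (G.Adj p.1.1 p.1.2))
      ≤ ∏ p : Q n, (F p true + F p false) := by
  have h1 : ∏ p : Q n, (F p true + F p false) = ∑ f : Q n → Bool, ∏ p : Q n, F p (f p) := by
    have := Finset.prod_univ_sum (fun _ : Q n => (Finset.univ : Finset Bool)) (fun p b => F p b)
    rw [Fintype.piFinset_univ] at this
    rw [← this]
    exact Finset.prod_congr rfl (fun p _ => by simp)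
  rw [h1]
  let e : SimpleGraph (Fin n) → (Q n → Bool) := fun G p => decide (G.Adj p.1.1 p.1.2)
  have he : Function.Injective e := by
    intro G H hGH
    have key : ∀ i j : Fin n, i < j → (G.Adj i j ↔ H.Adj i j) := by
      intro i j hij
      have := congrFun hGH ⟨(i, j), hij⟩
      simpa [e] using this
    ext i j
    rcases lt_trichotomy i j with h | h | h
    · exact key i j h
    · subst h; simp
    · rw [G.adj_comm, H.adj_comm]; exact key j i h
  calc ∑ G : SimpleGraph (Fin n), ∏ p : Q n, F p (decide (G.Adj p.1.1 p.1.2))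
      = ∑ f ∈ Finset.univ.image e, ∏ p : Q n, F p (f p) := by
        rw [Finset.sum_image (fun a _ b _ h => he h)]
    _ ≤ ∑ f : Q n → Bool, ∏ p : Q n, F p (f p) := by
        apply Finset.sum_le_sum_of_subset_of_nonneg (Finset.subset_univ _)
        intro f _ _
        exact Finset.prod_nonneg (fun p _ => hF p _)

/-- second moment of a sum of independent centred variables -/
lemma second_moment {n : ℕ} (g : Fin n → ℝ) (h0 : ∑ v, g v = 0) (h1 : ∀ v, |g v| ≤ 1) (s : ℕ) :
    ∑ R : Fin s → Fin n, (∑ t, g (R t)) ^ 2 ≤ s * (n : ℝ) ^ s := by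
  have hsq : ∑ v, (g v) ^ 2 ≤ n := by
    calc ∑ v, (g v) ^ 2 ≤ ∑ v : Fin n, (1 : ℝ) := Finset.sum_le_sum (fun v _ => by
          rw [sq_le_one_iff_abs_le_one]; exact h1 v)
      _ = n := by simp
  induction s with
  | zero => simp
  | succ s ih =>
    have h2 : ∑ R : Fin (s + 1) → Fin n, (∑ t, g (R t)) ^ 2
        = ∑ x : Fin n × (Fin s → Fin n), (g x.1 + ∑ t, g (x.2 t)) ^ 2 := by
      rw [← Equiv.sum_comp (Fin.consEquiv (fun _ : Fin (s + 1) => Fin n))]
      apply Finset.sum_congr rfl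
      intro x _
      rw [Fin.sum_univ_succ]
      simp [Fin.consEquiv]
    rw [h2, ← Finset.univ_product_univ, Finset.sum_product]
    have h3 : ∀ v : Fin n, ∑ R : Fin s → Fin n, (g v + ∑ t, g (R t)) ^ 2
        = (n : ℝ) ^ s * (g v) ^ 2 + g v * (2 * ∑ R : Fin s → Fin n, ∑ t, g (R t))
          + ∑ R : Fin s → Fin n, (∑ t, g (R t)) ^ 2 := by
      intro v
      have : ∀ R : Fin s → Fin n, (g v + ∑ t, g (R t)) ^ 2
          = (g v) ^ 2 + g v * (2 * ∑ t, g (R t)) + (∑ t, g (R t)) ^ 2 := fun R => by ring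
      rw [Finset.sum_congr rfl (fun R _ => this R), Finset.sum_add_distrib,
        Finset.sum_add_distrib, ← Finset.mul_sum, ← Finset.mul_sum]
      simp
    simp only [h3]
    rw [Finset.sum_add_distrib, Finset.sum_add_distrib, ← Finset.mul_sum, ← Finset.sum_mul, h0]
    simp only [zero_mul, add_zero, Finset.sum_const, Finset.card_univ, Fintype.card_fin,
      nsmul_eq_mul]
    have hn : (0 : ℝ) ≤ n := Nat.cast_nonneg n
    calc (n : ℝ) ^ s * ∑ v, g v ^ 2 + n * ∑ R : Fin s → Fin n, (∑ t, g (R t)) ^ 2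
        ≤ (n : ℝ) ^ s * n + n * (s * (n : ℝ) ^ s) := by gcongr
      _ = ((s + 1 : ℕ) : ℝ) * (n : ℝ) ^ (s + 1) := by push_cast; ring

/-- `q η i j b` is the fraction of `t` for which the triple of `i`, `j` and the vertex with adjacencies
`η t` is even, if `b` says whether `i j` is an edge -/
noncomputable def q {n s : ℕ} (η : Fin s → Fin n → Bool) (i j : Fin n) (b : Bool) : ℝ :=
  (∑ t : Fin s, if (xor (η t i) (η t j)) = b then (1 : ℝ) else 0) / s

lemma q_nonneg {n s : ℕ} (η : Fin s → Fin n → Bool) (i j : Fin n) (b : Bool) : 0 ≤ q η i j b := by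
  unfold q
  apply div_nonneg _ (Nat.cast_nonneg _)
  exact Finset.sum_nonneg (fun t _ => by split_ifs <;> norm_num)

lemma q_add {n s : ℕ} (hs : 0 < s) (η : Fin s → Fin n → Bool) (i j : Fin n) :
    q η i j true + q η i j false = 1 := by
  unfold q
  rw [← add_div, ← Finset.sum_add_distrib]
  have : ∀ t : Fin s, ((if (xor (η t i) (η t j)) = true then (1 : ℝ) else 0)
      + (if (xor (η t i) (η t j)) = false then (1 : ℝ) else 0)) = 1 := by
    intro t
    cases (xor (η t i) (η t j)) <;> simp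
  rw [Finset.sum_congr rfl (fun t _ => this t)]
  have : (s : ℝ) ≠ 0 := by positivity
  simp [this]

/-- is the triple even? -/
noncomputable def ind {n : ℕ} (G : SimpleGraph (Fin n)) (i j k : Fin n) : ℝ :=
  if (xor (decide (G.Adj i k)) (decide (G.Adj j k))) = decide (G.Adj i j) then 1 else 0

lemma ind_even {n : ℕ} (G : SimpleGraph (Fin n)) (i j k : Fin n) :
    Even ((if G.Adj i j then 1 else 0) + (if G.Adj i k then 1 else 0)
      + (if G.Adj j k then 1 else 0) : ℕ) ↔
    (xor (decide (G.Adj i k)) (decide (G.Adj j k))) = decide (G.Adj i j) := by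
  by_cases h1 : G.Adj i j <;> by_cases h2 : G.Adj i k <;> by_cases h3 : G.Adj j k <;>
    simp [h1, h2, h3] <;> decide

noncomputable def avg {n : ℕ} (G : SimpleGraph (Fin n)) (i j : Fin n) : ℝ :=
  (∑ k, ind G i j k) / n

/-- a good sample -/
lemma exists_sample {n : ℕ} (hn : 0 < n) (G : SimpleGraph (Fin n)) (s : ℕ) (hs : 0 < s) :
    ∃ R : Fin s → Fin n, ∑ p : Q n, ((∑ t, ind G p.1.1 p.1.2 (R t)) / s - avg G p.1.1 p.1.2) ^ 2
      ≤ (n : ℝ) ^ 2 / s := by
  have hs' : (0 : ℝ) < s := by exact_mod_cast hs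
  have hn' : (0 : ℝ) < n := by exact_mod_cast hn
  have hpair : ∀ p : Q n, ∑ R : Fin s → Fin n,
      ((∑ t, ind G p.1.1 p.1.2 (R t)) / s - avg G p.1.1 p.1.2) ^ 2 ≤ (n : ℝ) ^ s / s := by
    intro p
    set a := avg G p.1.1 p.1.2 with ha
    have ha0 : 0 ≤ a := by
      rw [ha]; unfold avg
      apply div_nonneg _ (Nat.cast_nonneg _)
      exact Finset.sum_nonneg (fun t _ => by unfold ind; split_ifs <;> norm_num)
    have ha1 : a ≤ 1 := by
      rw [ha]; unfold avg
      rw [div_le_one hn']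
      calc ∑ k, ind G p.1.1 p.1.2 k ≤ ∑ k : Fin n, (1 : ℝ) :=
            Finset.sum_le_sum (fun t _ => by unfold ind; split_ifs <;> norm_num)
        _ = n := by simp
    have key := second_moment (fun v => ind G p.1.1 p.1.2 v - a) (by
      rw [Finset.sum_sub_distrib]
      simp only [Finset.sum_const, Finset.card_univ, Fintype.card_fin, nsmul_eq_mul]
      rw [ha]; unfold avg
      field_simp
      ring) (by
      intro v
      have : ind G p.1.1 p.1.2 v = 1 ∨ ind G p.1.1 p.1.2 v = 0 := by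
        unfold ind; split_ifs <;> simp
      rw [abs_le]
      rcases this with h | h <;> rw [h] <;> constructor <;> linarith) s
    have : ∀ R : Fin s → Fin n, ((∑ t, ind G p.1.1 p.1.2 (R t)) / s - a) ^ 2
        = (1 / (s : ℝ) ^ 2) * (∑ t, (ind G p.1.1 p.1.2 (R t) - a)) ^ 2 := by
      intro R
      rw [Finset.sum_sub_distrib]
      simp only [Finset.sum_const, Finset.card_univ, Fintype.card_fin, nsmul_eq_mul]
      field_simp
    rw [Finset.sum_congr rfl (fun R _ => this R), ← Finset.mul_sum]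
    calc (1 / (s : ℝ) ^ 2) * ∑ R : Fin s → Fin n, (∑ t, (ind G p.1.1 p.1.2 (R t) - a)) ^ 2
        ≤ (1 / (s : ℝ) ^ 2) * (s * (n : ℝ) ^ s) := by
          apply mul_le_mul_of_nonneg_left key; positivity
      _ = (n : ℝ) ^ s / s := by field_simp
  have hcard : (Fintype.card (Q n) : ℝ) ≤ (n : ℝ) ^ 2 := by
    have : Fintype.card (Q n) ≤ Fintype.card (Fin n × Fin n) := Fintype.card_subtype_le _
    rw [Fintype.card_prod, Fintype.card_fin] at this
    have h2 : ((Fintype.card (Q n) : ℕ) : ℝ) ≤ ((n * n : ℕ) : ℝ) := by exact_mod_cast this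
    rw [sq]; simpa using h2
  have hsum : ∑ R : Fin s → Fin n, ∑ p : Q n,
      ((∑ t, ind G p.1.1 p.1.2 (R t)) / s - avg G p.1.1 p.1.2) ^ 2
      ≤ ∑ R : Fin s → Fin n, ((n : ℝ) ^ 2 / s) := by
    rw [Finset.sum_comm]
    calc ∑ p : Q n, ∑ R : Fin s → Fin n,
          ((∑ t, ind G p.1.1 p.1.2 (R t)) / s - avg G p.1.1 p.1.2) ^ 2
        ≤ ∑ p : Q n, ((n : ℝ) ^ s / s) := Finset.sum_le_sum (fun p _ => hpair p)
      _ = (Fintype.card (Q n) : ℝ) * ((n : ℝ) ^ s / s) := by simp
      _ ≤ (n : ℝ) ^ 2 * ((n : ℝ) ^ s / s) := by gcongr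
      _ = ∑ R : Fin s → Fin n, ((n : ℝ) ^ 2 / s) := by
        simp; ring
  haveI : Nonempty (Fin n) := ⟨⟨0, hn⟩⟩
  obtain ⟨R, _, hR⟩ := Finset.exists_le_of_sum_le Finset.univ_nonempty hsum
  exact ⟨R, hR⟩

/-- the bound for one graph -/
lemma one_graph {n : ℕ} (hn : 0 < n) (G : SimpleGraph (Fin n)) (m : ℕ) (hm : 0 < m) (δ : ℝ)
    (hδ : 0 < δ) :
    ∏ p : Q n, avg G p.1.1 p.1.2 ≤ Real.exp (2 * (n : ℝ) ^ 2 / (m * δ)) *
      ∑ η : Fin (m ^ 2) → Fin n → Bool,
        ∏ p : Q n, (q η p.1.1 p.1.2 (decide (G.Adj p.1.1 p.1.2)) + δ) := by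
  have hm' : (0 : ℝ) < m := by exact_mod_cast hm
  obtain ⟨R, hR⟩ := exists_sample hn G (m ^ 2) (by positivity)
  let η : Fin (m ^ 2) → Fin n → Bool := fun t i => decide (G.Adj i (R t))
  have hq : ∀ p : Q n, q η p.1.1 p.1.2 (decide (G.Adj p.1.1 p.1.2))
      = (∑ t, ind G p.1.1 p.1.2 (R t)) / ((m ^ 2 : ℕ) : ℝ) := fun p => rfl
  have h1 : ∏ p : Q n, avg G p.1.1 p.1.2 ≤
      ∏ p : Q n, ((q η p.1.1 p.1.2 (decide (G.Adj p.1.1 p.1.2)) + δ) *
        Real.exp (|q η p.1.1 p.1.2 (decide (G.Adj p.1.1 p.1.2)) - avg G p.1.1 p.1.2| / δ)) := by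
    apply Finset.prod_le_prod
    · intro p _
      unfold avg
      apply div_nonneg _ (Nat.cast_nonneg _)
      exact Finset.sum_nonneg (fun t _ => by unfold ind; split_ifs <;> norm_num)
    · intro p _
      set a := avg G p.1.1 p.1.2
      set b := q η p.1.1 p.1.2 (decide (G.Adj p.1.1 p.1.2)) with hb
      have hb0 : 0 ≤ b := q_nonneg _ _ _ _
      have h2 : a ≤ b + |b - a| := by
        have := neg_abs_le (b - a); linarith
      have h3 : b + |b - a| ≤ (b + δ) * (|b - a| / δ + 1) := by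
        have : (b + δ) * (|b - a| / δ + 1) = b + |b - a| + (δ + b * |b - a| / δ) := by
          field_simp; ring
        rw [this]
        have : 0 ≤ b * |b - a| / δ := by positivity
        linarith
      have h4 : (b + δ) * (|b - a| / δ + 1) ≤ (b + δ) * Real.exp (|b - a| / δ) := by
        apply mul_le_mul_of_nonneg_left (Real.add_one_le_exp _); positivity
      linarith
  rw [Finset.prod_mul_distrib, ← Real.exp_sum] at h1
  have h5 : ∑ p : Q n, |q η p.1.1 p.1.2 (decide (G.Adj p.1.1 p.1.2)) - avg G p.1.1 p.1.2| / δ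
      ≤ 2 * (n : ℝ) ^ 2 / (m * δ) := by
    have hcard : (Fintype.card (Q n) : ℝ) ≤ (n : ℝ) ^ 2 := by
      have : Fintype.card (Q n) ≤ Fintype.card (Fin n × Fin n) := Fintype.card_subtype_le _
      rw [Fintype.card_prod, Fintype.card_fin] at this
      have h2 : ((Fintype.card (Q n) : ℕ) : ℝ) ≤ ((n * n : ℕ) : ℝ) := by exact_mod_cast this
      rw [sq]; simpa using h2
    have h6 : ∀ p : Q n, |q η p.1.1 p.1.2 (decide (G.Adj p.1.1 p.1.2)) - avg G p.1.1 p.1.2| / δ
        ≤ (1 / m + m * ((∑ t, ind G p.1.1 p.1.2 (R t)) / ((m ^ 2 : ℕ) : ℝ)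
            - avg G p.1.1 p.1.2) ^ 2) / δ := by
      intro p
      rw [hq p]
      set d := (∑ t, ind G p.1.1 p.1.2 (R t)) / ((m ^ 2 : ℕ) : ℝ) - avg G p.1.1 p.1.2
      apply div_le_div_of_nonneg_right _ hδ.le
      have h7 : 0 ≤ (1 - m * |d|) ^ 2 := sq_nonneg _
      have h8 : 2 * (m * |d|) ≤ 1 + m ^ 2 * d ^ 2 := by
        have : (m * |d|) ^ 2 = m ^ 2 * d ^ 2 := by rw [mul_pow, sq_abs]
        nlinarith
      have h9 : m * |d| ≤ 1 + m ^ 2 * d ^ 2 := by
        have : 0 ≤ m * |d| := by positivity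
        linarith
      have h10 : |d| = (m * |d|) / m := by field_simp
      rw [h10]
      have h11 : 1 / (m : ℝ) + m * d ^ 2 = (1 + m ^ 2 * d ^ 2) / m := by field_simp
      rw [h11]
      exact div_le_div_of_nonneg_right h9 hm'.le
    refine (Finset.sum_le_sum (fun p _ => h6 p)).trans ?_
    rw [← Finset.sum_div, Finset.sum_add_distrib, ← Finset.mul_sum]
    have h12 : (∑ p : Q n, (1 / (m : ℝ))) ≤ (n : ℝ) ^ 2 / m := by
      rw [Finset.sum_const, Finset.card_univ, nsmul_eq_mul, mul_one_div]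
      exact div_le_div_of_nonneg_right hcard hm'.le
    have h13 : (m : ℝ) * ∑ p : Q n, ((∑ t, ind G p.1.1 p.1.2 (R t)) / ((m ^ 2 : ℕ) : ℝ)
            - avg G p.1.1 p.1.2) ^ 2 ≤ (n : ℝ) ^ 2 / m := by
      calc _ ≤ (m : ℝ) * ((n : ℝ) ^ 2 / ((m ^ 2 : ℕ) : ℝ)) := by gcongr
        _ = (n : ℝ) ^ 2 / m := by push_cast; field_simp
    calc _ ≤ ((n : ℝ) ^ 2 / m + (n : ℝ) ^ 2 / m) / δ := by gcongr
      _ = 2 * (n : ℝ) ^ 2 / (m * δ) := by field_simp; ring
  calc ∏ p : Q n, avg G p.1.1 p.1.2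
      ≤ (∏ p : Q n, (q η p.1.1 p.1.2 (decide (G.Adj p.1.1 p.1.2)) + δ)) *
        Real.exp (∑ p : Q n, |q η p.1.1 p.1.2 (decide (G.Adj p.1.1 p.1.2))
          - avg G p.1.1 p.1.2| / δ) := h1
    _ ≤ (∑ η : Fin (m ^ 2) → Fin n → Bool,
        ∏ p : Q n, (q η p.1.1 p.1.2 (decide (G.Adj p.1.1 p.1.2)) + δ)) *
        Real.exp (2 * (n : ℝ) ^ 2 / (m * δ)) := by
      have hnn : ∀ η : Fin (m ^ 2) → Fin n → Bool,
          0 ≤ ∏ p : Q n, (q η p.1.1 p.1.2 (decide (G.Adj p.1.1 p.1.2)) + δ) := fun η =>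
        Finset.prod_nonneg (fun p _ => add_nonneg (q_nonneg _ _ _ _) hδ.le)
      apply mul_le_mul _ (Real.exp_le_exp.mpr h5) (Real.exp_nonneg _)
      · exact Finset.sum_nonneg (fun η _ => hnn η)
      · exact Finset.single_le_sum (f := fun η : Fin (m ^ 2) → Fin n → Bool =>
          ∏ p : Q n, (q η p.1.1 p.1.2 (decide (G.Adj p.1.1 p.1.2)) + δ))
          (fun η _ => hnn η) (Finset.mem_univ η)
    _ = _ := mul_comm _ _

/-- the sum over all graphs of the products of the averages over all vertices -/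
lemma sum_avg {n : ℕ} (hn : 0 < n) (m : ℕ) (hm : 0 < m) (δ : ℝ) (hδ : 0 < δ) :
    ∑ G : SimpleGraph (Fin n), ∏ p : Q n, avg G p.1.1 p.1.2 ≤
      Real.exp (2 * (n : ℝ) ^ 2 / (m * δ)) * (2 ^ (m ^ 2 * n) * (1 + 2 * δ) ^ (n ^ 2)) := by
  calc ∑ G : SimpleGraph (Fin n), ∏ p : Q n, avg G p.1.1 p.1.2
      ≤ ∑ G : SimpleGraph (Fin n), Real.exp (2 * (n : ℝ) ^ 2 / (m * δ)) *
      ∑ η : Fin (m ^ 2) → Fin n → Bool,
        ∏ p : Q n, (q η p.1.1 p.1.2 (decide (G.Adj p.1.1 p.1.2)) + δ) :=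
        Finset.sum_le_sum (fun G _ => one_graph hn G m hm δ hδ)
    _ = Real.exp (2 * (n : ℝ) ^ 2 / (m * δ)) * ∑ η : Fin (m ^ 2) → Fin n → Bool,
        ∑ G : SimpleGraph (Fin n),
        ∏ p : Q n, (q η p.1.1 p.1.2 (decide (G.Adj p.1.1 p.1.2)) + δ) := by
        rw [← Finset.mul_sum, Finset.sum_comm]
    _ ≤ Real.exp (2 * (n : ℝ) ^ 2 / (m * δ)) * ∑ η : Fin (m ^ 2) → Fin n → Bool,
        (1 + 2 * δ) ^ (n ^ 2) := by
        apply mul_le_mul_of_nonneg_left _ (Real.exp_nonneg _)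
        apply Finset.sum_le_sum
        intro η _
        refine (sum_graph_le (fun p b => q η p.1.1 p.1.2 b + δ)
          (fun p b => add_nonneg (q_nonneg _ _ _ _) hδ.le)).trans ?_
        have : ∀ p : Q n, (q η p.1.1 p.1.2 true + δ + (q η p.1.1 p.1.2 false + δ)) = 1 + 2 * δ := by
          intro p
          have := q_add (pow_pos hm 2) η p.1.1 p.1.2
          linarith
        simp only [this, Finset.prod_const, Finset.card_univ]
        apply pow_le_pow_right₀ (by linarith)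
        have : Fintype.card (Q n) ≤ Fintype.card (Fin n × Fin n) := Fintype.card_subtype_le _
        rw [Fintype.card_prod, Fintype.card_fin] at this
        rw [sq]; exact this
    _ = _ := by
      simp only [Finset.sum_const, Finset.card_univ, nsmul_eq_mul, Fintype.card_pi,
        Fintype.card_bool, Finset.prod_const, Fintype.card_fin, Nat.cast_pow, Nat.cast_ofNat]
      rw [← pow_mul, mul_comm n (m ^ 2)]

/-- For every ε>0 and all large n, summing over all graphs on n vertices the product over pairs i<j of the fraction of other vertices k with an even number of edges in triangle ijk gives at most 2^(εn²). -/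
theorem result :
    ∀ ε : ℝ, 0 < ε → ∃ N : ℕ, ∀ n : ℕ, N ≤ n →
      (∑ G : SimpleGraph (Fin n),
        ∏ i : Fin n, ∏ j : Fin n,
          (if i < j then
            (((Finset.univ.filter (fun k : Fin n => k ≠ i ∧ k ≠ j ∧
                Even ((if G.Adj i j then 1 else 0) + (if G.Adj i k then 1 else 0)
                  + (if G.Adj j k then 1 else 0) : ℕ))).card : ℝ) / ((n : ℝ) - 2))
          else 1)) ≤ (2 : ℝ) ^ (ε * (n : ℝ) ^ 2) := by
  intro ε hε
  obtain ⟨m, hm⟩ := exists_nat_gt (256 / ε ^ 2)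
  have hm0 : 0 < m := by
    have : (0 : ℝ) < m := lt_of_le_of_lt (by positivity) hm
    exact_mod_cast this
  obtain ⟨N, hN⟩ := exists_nat_gt (4 * (6 + (m : ℝ) ^ 2) / ε)
  refine ⟨N + 3, fun n hn => ?_⟩
  have hn3 : (3 : ℝ) ≤ n := by
    have : 3 ≤ n := by omega
    exact_mod_cast this
  have hnN : 4 * (6 + (m : ℝ) ^ 2) / ε ≤ n := by
    have : (N : ℝ) ≤ n := by
      have : N ≤ n := by omega
      exact_mod_cast this
    linarith
  have hn0 : 0 < n := by omega
  have hm' : (0 : ℝ) < m := by exact_mod_cast hm0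
  set δ : ℝ := ε / 16 with hδd
  have hδ : 0 < δ := by positivity
  -- one graph
  have h1 : ∀ G : SimpleGraph (Fin n), (∏ i : Fin n, ∏ j : Fin n,
          (if i < j then
            (((Finset.univ.filter (fun k : Fin n => k ≠ i ∧ k ≠ j ∧
                Even ((if G.Adj i j then 1 else 0) + (if G.Adj i k then 1 else 0)
                  + (if G.Adj j k then 1 else 0) : ℕ))).card : ℝ) / ((n : ℝ) - 2))
          else 1)) ≤ Real.exp (6 * n) * ∏ p : Q n, avg G p.1.1 p.1.2 := by
    intro G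
    rw [prod_pairs (fun i j => (((Finset.univ.filter (fun k : Fin n => k ≠ i ∧ k ≠ j ∧
                Even ((if G.Adj i j then 1 else 0) + (if G.Adj i k then 1 else 0)
                  + (if G.Adj j k then 1 else 0) : ℕ))).card : ℝ) / ((n : ℝ) - 2)))]
    have h2 : ∀ p : Q n, (((Finset.univ.filter (fun k : Fin n => k ≠ p.1.1 ∧ k ≠ p.1.2 ∧
                Even ((if G.Adj p.1.1 p.1.2 then 1 else 0) + (if G.Adj p.1.1 k then 1 else 0)
                  + (if G.Adj p.1.2 k then 1 else 0) : ℕ))).card : ℝ) / ((n : ℝ) - 2))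
          ≤ Real.exp (6 / n) * avg G p.1.1 p.1.2 := by
      intro p
      have hle : ((Finset.univ.filter (fun k : Fin n => k ≠ p.1.1 ∧ k ≠ p.1.2 ∧
                Even ((if G.Adj p.1.1 p.1.2 then 1 else 0) + (if G.Adj p.1.1 k then 1 else 0)
                  + (if G.Adj p.1.2 k then 1 else 0) : ℕ))).card : ℝ)
          ≤ ∑ k, ind G p.1.1 p.1.2 k := by
        unfold ind
        rw [← Finset.sum_boole]
        apply Finset.sum_le_sum
        intro k _
        by_cases h : Even ((if G.Adj p.1.1 p.1.2 then 1 else 0) + (if G.Adj p.1.1 k then 1 else 0)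
                  + (if G.Adj p.1.2 k then 1 else 0) : ℕ)
        · rw [if_pos ((ind_even G p.1.1 p.1.2 k).mp h)]
          split_ifs <;> norm_num
        · rw [if_neg (fun hh => h hh.2.2)]
          split_ifs <;> norm_num
      have hnn : 0 ≤ ∑ k, ind G p.1.1 p.1.2 k :=
        Finset.sum_nonneg (fun t _ => by unfold ind; split_ifs <;> norm_num)
      have hexp : (1 : ℝ) / (n - 2) ≤ Real.exp (6 / n) * (1 / n) := by
        have h3 := Real.add_one_le_exp (6 / (n : ℝ))
        have h4 : (1 : ℝ) / (n - 2) ≤ (6 / n + 1) * (1 / n) := by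
          rw [div_le_iff₀ (by linarith)]
          have : (6 / (n : ℝ) + 1) * (1 / n) * (n - 2) = (6 + n) * (n - 2) / (n * n) := by
            field_simp
          rw [this, le_div_iff₀ (by positivity)]
          nlinarith
        refine h4.trans ?_
        gcongr
      calc _ ≤ (∑ k, ind G p.1.1 p.1.2 k) / ((n : ℝ) - 2) :=
            div_le_div_of_nonneg_right hle (by linarith)
        _ = (∑ k, ind G p.1.1 p.1.2 k) * (1 / ((n : ℝ) - 2)) := by ring
        _ ≤ (∑ k, ind G p.1.1 p.1.2 k) * (Real.exp (6 / n) * (1 / n)) := by gcongr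
        _ = Real.exp (6 / n) * avg G p.1.1 p.1.2 := by unfold avg; ring
    have h5 : ∏ p : Q n, (((Finset.univ.filter (fun k : Fin n => k ≠ p.1.1 ∧ k ≠ p.1.2 ∧
                Even ((if G.Adj p.1.1 p.1.2 then 1 else 0) + (if G.Adj p.1.1 k then 1 else 0)
                  + (if G.Adj p.1.2 k then 1 else 0) : ℕ))).card : ℝ) / ((n : ℝ) - 2))
          ≤ ∏ p : Q n, (Real.exp (6 / n) * avg G p.1.1 p.1.2) := by
      apply Finset.prod_le_prod _ (fun p _ => h2 p)
      intro p _
      apply div_nonneg (Nat.cast_nonneg _) (by linarith)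
    refine h5.trans ?_
    rw [Finset.prod_mul_distrib, Finset.prod_const, Finset.card_univ, ← Real.exp_nat_mul]
    have hcard : (Fintype.card (Q n) : ℝ) ≤ (n : ℝ) ^ 2 := by
      have : Fintype.card (Q n) ≤ Fintype.card (Fin n × Fin n) := Fintype.card_subtype_le _
      rw [Fintype.card_prod, Fintype.card_fin] at this
      have h2 : ((Fintype.card (Q n) : ℕ) : ℝ) ≤ ((n * n : ℕ) : ℝ) := by exact_mod_cast this
      rw [sq]; simpa using h2
    apply mul_le_mul_of_nonneg_right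
    · apply Real.exp_le_exp.mpr
      calc (Fintype.card (Q n) : ℝ) * (6 / n) ≤ (n : ℝ) ^ 2 * (6 / n) := by gcongr
        _ = 6 * n := by field_simp
    · apply Finset.prod_nonneg
      intro p _
      unfold avg
      apply div_nonneg _ (Nat.cast_nonneg _)
      exact Finset.sum_nonneg (fun t _ => by unfold ind; split_ifs <;> norm_num)
  refine (Finset.sum_le_sum (fun G _ => h1 G)).trans ?_
  rw [← Finset.mul_sum]
  refine (mul_le_mul_of_nonneg_left (sum_avg hn0 m hm0 δ hδ) (Real.exp_nonneg _)).trans ?_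
  have h6 : (2 : ℝ) ^ (m ^ 2 * n) ≤ Real.exp ((m : ℝ) ^ 2 * n) := by
    have : (2 : ℝ) ≤ Real.exp 1 := by
      have := Real.add_one_le_exp (1 : ℝ); linarith
    calc (2 : ℝ) ^ (m ^ 2 * n) ≤ (Real.exp 1) ^ (m ^ 2 * n) := by gcongr
      _ = Real.exp ((m : ℝ) ^ 2 * n) := by
        rw [← Real.exp_nat_mul]; push_cast; ring_nf
  have h7 : (1 + 2 * δ) ^ (n ^ 2) ≤ Real.exp (2 * δ * (n : ℝ) ^ 2) := by
    calc (1 + 2 * δ) ^ (n ^ 2) ≤ (Real.exp (2 * δ)) ^ (n ^ 2) := by
          apply pow_le_pow_left₀ (by positivity)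
          have := Real.add_one_le_exp (2 * δ); linarith
      _ = Real.exp (2 * δ * (n : ℝ) ^ 2) := by
        rw [← Real.exp_nat_mul]; push_cast; ring_nf
  have h8 : Real.exp (6 * n) * (Real.exp (2 * (n : ℝ) ^ 2 / (m * δ)) *
      (2 ^ (m ^ 2 * n) * (1 + 2 * δ) ^ (n ^ 2)))
      ≤ Real.exp (6 * n) * (Real.exp (2 * (n : ℝ) ^ 2 / (m * δ)) *
      (Real.exp ((m : ℝ) ^ 2 * n) * Real.exp (2 * δ * (n : ℝ) ^ 2))) := by gcongr
  refine h8.trans ?_
  rw [← Real.exp_add, ← Real.exp_add, ← Real.exp_add, Real.rpow_def_of_pos (by norm_num)]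
  apply Real.exp_le_exp.mpr
  have hlog : (1 : ℝ) / 2 ≤ Real.log 2 := by
    have := Real.log_two_gt_d9; linarith
  have h9 : 2 * (n : ℝ) ^ 2 / (m * δ) ≤ ε / 8 * (n : ℝ) ^ 2 := by
    have h10 : 256 / ε ^ 2 ≤ m := hm.le
    rw [div_le_iff₀ (by positivity)] at h10
    have h11 : 2 / ((m : ℝ) * δ) ≤ ε / 8 := by
      rw [hδd, div_le_iff₀ (by positivity)]
      nlinarith
    calc 2 * (n : ℝ) ^ 2 / (m * δ) = 2 / ((m : ℝ) * δ) * (n : ℝ) ^ 2 := by ring
      _ ≤ ε / 8 * (n : ℝ) ^ 2 := by gcongr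
  have h12 : (6 + (m : ℝ) ^ 2) * n ≤ ε / 4 * (n : ℝ) ^ 2 := by
    rw [div_le_iff₀ hε] at hnN
    nlinarith
  have h13 : ε / 2 * (n : ℝ) ^ 2 ≤ Real.log 2 * (ε * (n : ℝ) ^ 2) := by
    have : 0 ≤ ε * (n : ℝ) ^ 2 := by positivity
    nlinarith
  have h14 : 2 * δ * (n : ℝ) ^ 2 = ε / 8 * (n : ℝ) ^ 2 := by rw [hδd]; ring
  linarith

end Pool.Agent.S11885
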