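import Pool.Statements.S13772

set_option autoImplicit false
open Pool Pool.MP_b1ea19_gt

namespace Pool.Agent.S13772

open Set Topology Filter Real

/-- The closed topologist's sine curve. -/
def X0 : Set (ℝ × ℝ) :=
  {p | 0 ≤ p.1 ∧ p.1 ≤ 1 ∧ -1 ≤ p.2 ∧ p.2 ≤ 1 ∧ (p.1 = 0 ∨ p.2 = Real.sin (p.1)⁻¹)}

lemma cont_sin_inv : ContinuousOn (fun x : ℝ => Real.sin x⁻¹) {x | x ≠ 0} :=
  Real.continuous_sin.comp_continuousOn (continuousOn_inv₀)

lemma isClosed_X0 : IsClosed X0 := by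
  have h1 : IsClosed {p : ℝ × ℝ | 0 ≤ p.1 ∧ p.1 ≤ 1 ∧ -1 ≤ p.2 ∧ p.2 ≤ 1} := by
    refine (isClosed_le continuous_const continuous_fst).inter ?_
    refine (isClosed_le continuous_fst continuous_const).inter ?_
    exact (isClosed_le continuous_const continuous_snd).inter
      (isClosed_le continuous_snd continuous_const)
  have h2 : IsClosed {p : ℝ × ℝ | p.1 = 0 ∨ p.2 = Real.sin (p.1)⁻¹} := by
    rw [← isOpen_compl_iff, isOpen_iff_mem_nhds]
    rintro ⟨x, y⟩ hp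
    simp only [mem_compl_iff, mem_ofPred_eq, not_or] at hp
    have hc : ContinuousAt (fun q : ℝ × ℝ => q.2 - Real.sin (q.1)⁻¹) (x, y) := by
      refine continuousAt_snd.sub ?_
      exact Real.continuous_sin.continuousAt.comp
        (ContinuousAt.inv₀ continuousAt_fst hp.1)
    have hc1 : ContinuousAt (fun q : ℝ × ℝ => q.1) (x, y) := continuousAt_fst
    have e1 := hc.eventually_ne (show (y - Real.sin x⁻¹) ≠ 0 from sub_ne_zero.2 hp.2)
    have e2 := hc1.eventually_ne (show x ≠ 0 from hp.1)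
    filter_upwards [e1, e2] with q hq1 hq2
    simp only [mem_compl_iff, mem_ofPred_eq, not_or]
    exact ⟨hq2, fun h => hq1 (sub_eq_zero.2 h)⟩
  have : X0 = {p : ℝ × ℝ | 0 ≤ p.1 ∧ p.1 ≤ 1 ∧ -1 ≤ p.2 ∧ p.2 ≤ 1} ∩
      {p : ℝ × ℝ | p.1 = 0 ∨ p.2 = Real.sin (p.1)⁻¹} := by
    ext p; simp only [X0, mem_ofPred_eq, mem_inter_iff]; tauto
  rw [this]; exact h1.inter h2

lemma isCompact_X0 : IsCompact X0 := by
  refine (isCompact_Icc.prod isCompact_Icc).of_isClosed_subset isClosed_X0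
    (show X0 ⊆ Icc (0:ℝ) 1 ×ˢ Icc (-1:ℝ) 1 from ?_)
  rintro p ⟨h1, h2, h3, h4, -⟩
  exact ⟨⟨h1, h2⟩, ⟨h3, h4⟩⟩

/-- the space -/
abbrev X : Type := ↥X0

lemma cont_fst : Continuous (fun p : X => p.1.1) := continuous_fst.comp continuous_subtype_val
lemma cont_snd : Continuous (fun p : X => p.1.2) := continuous_snd.comp continuous_subtype_val

lemma ext_pos {p q : X} (h : p.1.1 = q.1.1) (h0 : 0 < p.1.1) : p = q := by
  have hp := p.2.2.2.2.2
  have hq := q.2.2.2.2.2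
  rcases hp with hp | hp
  · exact absurd hp h0.ne'
  rcases hq with hq | hq
  · exact absurd hq (h ▸ h0.ne')
  exact Subtype.ext (Prod.ext h (by rw [hp, hq, h]))

/-- the parametrization of the graph part -/
noncomputable def g (t : ℝ) : ℝ × ℝ := (t, Real.sin t⁻¹)

lemma g_mem {t : ℝ} (h0 : 0 < t) (h1 : t ≤ 1) : g t ∈ X0 :=
  ⟨h0.le, h1, Real.neg_one_le_sin _, Real.sin_le_one _, Or.inr rfl⟩

lemma g_cont : ContinuousOn g {x | x ≠ 0} := continuousOn_id.prodMk cont_sin_inv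

lemma preconn_band {a b : ℝ} (ha : 0 ≤ a) (hb : b ≤ 1) :
    IsPreconnected {p : X | a < p.1.1 ∧ p.1.1 < b} := by
  rw [← Topology.IsInducing.subtypeVal.isPreconnected_image]
  have : (Subtype.val '' {p : X | a < p.1.1 ∧ p.1.1 < b}) = g '' Ioo a b := by
    ext z
    constructor
    · rintro ⟨p, ⟨h1, h2⟩, rfl⟩
      refine ⟨p.1.1, ⟨h1, h2⟩, ?_⟩
      rcases p.2.2.2.2.2 with h | h
      · exact absurd h (ha.trans_lt h1).ne'
      · exact Prod.ext rfl h.symm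
    · rintro ⟨t, ⟨h1, h2⟩, rfl⟩
      exact ⟨⟨g t, g_mem (ha.trans_lt h1) (h2.le.trans hb)⟩, ⟨h1, h2⟩, rfl⟩
  rw [this]
  refine isPreconnected_Ioo.image _ (g_cont.mono ?_)
  rintro t ⟨h1, -⟩
  exact (ha.trans_lt h1).ne'

lemma preconn_bar {c d : ℝ} (hc : -1 ≤ c) (hd : d ≤ 1) :
    IsPreconnected {p : X | p.1.1 = 0 ∧ c < p.1.2 ∧ p.1.2 < d} := by
  rw [← Topology.IsInducing.subtypeVal.isPreconnected_image]
  have : (Subtype.val '' {p : X | p.1.1 = 0 ∧ c < p.1.2 ∧ p.1.2 < d}) =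
      (fun y : ℝ => ((0 : ℝ), y)) '' Ioo c d := by
    ext z
    constructor
    · rintro ⟨p, ⟨h0, h1, h2⟩, rfl⟩
      exact ⟨p.1.2, ⟨h1, h2⟩, Prod.ext h0.symm rfl⟩
    · rintro ⟨t, ⟨h1, h2⟩, rfl⟩
      exact ⟨⟨(0, t), ⟨le_rfl, zero_le_one, hc.trans h1.le, h2.le.trans hd, Or.inl rfl⟩⟩,
        ⟨rfl, h1, h2⟩, rfl⟩
  rw [this]
  exact isPreconnected_Ioo.image _ (by fun_prop)

/-- values close to the bar -/
lemma exists_small {y : ℝ} (hy : -1 ≤ y) (hy' : y ≤ 1) {a : ℝ} (ha : 0 < a) :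
    ∃ x, 0 < x ∧ x < a ∧ Real.sin x⁻¹ = y := by
  obtain ⟨n, hn⟩ := exists_nat_gt (a⁻¹)
  have hpi := Real.pi_gt_three
  have hge : 1 ≤ Real.arcsin y + (n + 1) * (2 * π) := by
    have := Real.neg_pi_div_two_le_arcsin y
    have hn0 : (0:ℝ) ≤ n := Nat.cast_nonneg n
    nlinarith
  have hgt : a⁻¹ < Real.arcsin y + (n + 1) * (2 * π) := by
    have := Real.neg_pi_div_two_le_arcsin y
    have hn0 : (0:ℝ) ≤ n := Nat.cast_nonneg n
    nlinarith
  refine ⟨(Real.arcsin y + (n + 1) * (2 * π))⁻¹, inv_pos.2 (by linarith), ?_, ?_⟩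
  · rw [inv_lt_comm₀ (by linarith) ha]; exact hgt
  · rw [inv_inv]
    have : Real.arcsin y + (n + 1) * (2 * π) = Real.arcsin y + ((n + 1 : ℕ) : ℝ) * (2 * π) := by
      push_cast; ring
    rw [this, Real.sin_add_nat_mul_two_pi, Real.sin_arcsin hy hy']

/-- the closure of a band -/
lemma mem_closure_band {a b : ℝ} (ha : 0 ≤ a) (hb : b ≤ 1) (hab : a < b) {p : X}
    (h1 : a ≤ p.1.1) (h2 : p.1.1 ≤ b) :
    p ∈ closure {p : X | a < p.1.1 ∧ p.1.1 < b} := by
  rw [Metric.mem_closure_iff]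
  intro ε hε
  by_cases h0 : p.1.1 = 0
  · -- on the bar
    have ha0 : a = 0 := le_antisymm (h0 ▸ h1) ha
    obtain ⟨x, hx0, hxa, hx⟩ := exists_small p.2.2.2.1 p.2.2.2.2.1
      (lt_min hε (show 0 < b by linarith))
    refine ⟨⟨g x, g_mem hx0 ((hxa.le.trans (min_le_right _ _)).trans hb)⟩,
      ⟨by rw [ha0]; exact hx0, hxa.trans_le (min_le_right _ _)⟩, ?_⟩
    rw [Subtype.dist_eq, Prod.dist_eq]
    refine max_lt ?_ ?_
    · rw [h0, Real.dist_eq, zero_sub, abs_neg]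
      show |x| < ε
      rw [abs_of_pos hx0]
      exact hxa.trans_le (min_le_left _ _)
    · show dist p.1.2 (Real.sin x⁻¹) < ε
      rw [hx, dist_self]; exact hε
  · have hp0 : 0 < p.1.1 := lt_of_le_of_ne p.2.1 (Ne.symm h0)
    have hpg : p.1 = g p.1.1 := by
      rcases p.2.2.2.2.2 with h | h
      · exact absurd h h0
      · exact Prod.ext rfl h
    have hgc : ContinuousAt g p.1.1 :=
      g_cont.continuousAt (isOpen_ne.mem_nhds h0)
    obtain ⟨δ, hδ, hδ'⟩ := Metric.continuousAt_iff.1 hgc ε hε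
    have hcl : p.1.1 ∈ closure (Ioo a b) := by
      rw [closure_Ioo hab.ne]; exact ⟨h1, h2⟩
    obtain ⟨t, ht, htd⟩ := Metric.mem_closure_iff.1 hcl δ hδ
    refine ⟨⟨g t, g_mem (ha.trans_lt ht.1) (ht.2.le.trans hb)⟩, ht, ?_⟩
    rw [Subtype.dist_eq, hpg, dist_comm]
    exact hδ' (by rwa [dist_comm])

lemma mem_closure_bar {c d : ℝ} (hc : -1 ≤ c) (hd : d ≤ 1) (hcd : c < d) {p : X}
    (h0 : p.1.1 = 0) (h1 : c ≤ p.1.2) (h2 : p.1.2 ≤ d) :
    p ∈ closure {p : X | p.1.1 = 0 ∧ c < p.1.2 ∧ p.1.2 < d} := by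
  rw [Metric.mem_closure_iff]
  intro ε hε
  have hcl : p.1.2 ∈ closure (Ioo c d) := by
    rw [closure_Ioo hcd.ne]; exact ⟨h1, h2⟩
  obtain ⟨t, ht, htd⟩ := Metric.mem_closure_iff.1 hcl ε hε
  refine ⟨⟨(0, t), ⟨le_rfl, zero_le_one, hc.trans ht.1.le, ht.2.le.trans hd, Or.inl rfl⟩⟩,
    ⟨rfl, ht.1, ht.2⟩, ?_⟩
  rw [Subtype.dist_eq, Prod.dist_eq]
  exact max_lt (by rw [h0, dist_self]; exact hε) htd

/-- a criterion for local separating points -/
lemma local_sep {Y : Type} [TopologicalSpace Y] {C V : Set Y} {h : Y → ℝ} (hh : Continuous h)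
    (hV : IsOpen V) {p : Y} (hpV : p ∈ V) (hpC : p ∈ C) (hconn : IsPreconnected (V ∩ C))
    (hinj : ∀ q ∈ V ∩ C, h q = h p → q = p)
    (h1 : ∃ q ∈ V ∩ C, h q < h p) (h2 : ∃ q ∈ V ∩ C, h p < h q) :
    ∃ V : Set Y, IsOpen V ∧ p ∈ V ∧ ¬ IsPreconnected (connectedComponentIn (V ∩ C) p \ {p}) := by
  refine ⟨V, hV, hpV, ?_⟩
  rw [hconn.connectedComponentIn ⟨hpV, hpC⟩]
  intro H
  obtain ⟨q1, hq1, hlt1⟩ := h1
  obtain ⟨q2, hq2, hlt2⟩ := h2
  obtain ⟨z, -, hz⟩ := H {q | h q < h p} {q | h p < h q} (isOpen_lt hh continuous_const)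
    (isOpen_lt continuous_const hh)
    (by
      rintro q ⟨hq, hqp⟩
      rcases lt_trichotomy (h q) (h p) with h' | h' | h'
      · exact Or.inl h'
      · exact absurd (hinj q hq h') hqp
      · exact Or.inr h')
    ⟨q1, ⟨hq1, fun h' => by rw [mem_singleton_iff.1 h'] at hlt1; exact lt_irrefl _ hlt1⟩, hlt1⟩
    ⟨q2, ⟨hq2, fun h' => by rw [mem_singleton_iff.1 h'] at hlt2; exact lt_irrefl _ hlt2⟩, hlt2⟩
  exact lt_asymm (a := h z) (b := h p) hz.1 hz.2

lemma sep_conn (C : Set X) (hC : IsCompact C) (hC' : IsConnected C) :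
    IsPreconnected {p : X | p ∈ C ∧ ∃ V : Set X, IsOpen V ∧ p ∈ V ∧
          ¬ IsPreconnected (connectedComponentIn (V ∩ C) p \ {p})} := by
  set L := {p : X | p ∈ C ∧ ∃ V : Set X, IsOpen V ∧ p ∈ V ∧
          ¬ IsPreconnected (connectedComponentIn (V ∩ C) p \ {p})} with hL
  have hLC : L ⊆ C := fun p hp => hp.1
  by_cases hbar : ∀ p ∈ C, p.1.1 = 0
  · -- a piece of the bar
    have hcp : IsCompact ((fun p : X => p.1.2) '' C) := hC.image cont_snd
    have hcn : IsConnected ((fun p : X => p.1.2) '' C) := hC'.image _ cont_snd.continuousOn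
    obtain ⟨pc, hpc, hpc'⟩ := hC.exists_isMinOn hC'.nonempty cont_snd.continuousOn
    obtain ⟨pd, hpd, hpd'⟩ := hC.exists_isMaxOn hC'.nonempty cont_snd.continuousOn
    have hmin : ∀ q ∈ C, pc.1.2 ≤ q.1.2 := fun q hq => hpc' hq
    have hmax : ∀ q ∈ C, q.1.2 ≤ pd.1.2 := fun q hq => hpd' hq
    rcases (hmin pd hpd).lt_or_eq with hlt | heq
    · have hDC : {p : X | p.1.1 = 0 ∧ pc.1.2 < p.1.2 ∧ p.1.2 < pd.1.2} ⊆ C := by
        rintro p ⟨h0, h1, h2⟩
        obtain ⟨q, hq, hqe⟩ := hcn.isPreconnected.Icc_subset (mem_image_of_mem _ hpc)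
          (mem_image_of_mem _ hpd) (show p.1.2 ∈ Icc pc.1.2 pd.1.2 from ⟨h1.le, h2.le⟩)
        have : q = p := Subtype.ext (Prod.ext ((hbar q hq).trans h0.symm) hqe)
        exact this ▸ hq
      refine (preconn_bar pc.2.2.2.1 pd.2.2.2.2.1).subset_closure (fun p hp => ?_)
        (fun p hp => mem_closure_bar pc.2.2.2.1 pd.2.2.2.2.1 hlt (hbar p hp.1)
          (hmin p hp.1) (hmax p hp.1))
      refine ⟨hDC hp, local_sep cont_snd isOpen_univ (mem_univ _) (hDC hp)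
        (by rw [univ_inter]; exact hC'.isPreconnected) ?_ ⟨pc, ⟨mem_univ _, hpc⟩, hp.2.1⟩
        ⟨pd, ⟨mem_univ _, hpd⟩, hp.2.2⟩⟩
      rintro q ⟨-, hq⟩ hqe
      exact Subtype.ext (Prod.ext ((hbar q hq).trans hp.1.symm) hqe)
    · refine Set.Subsingleton.isPreconnected (fun p hp q hq => ?_)
      have e1 : p.1.2 = q.1.2 := by
        have := hmin p (hLC hp); have := hmin q (hLC hq)
        have := hmax p (hLC hp); have := hmax q (hLC hq)
        linarith
      exact Subtype.ext (Prod.ext ((hbar p (hLC hp)).trans (hbar q (hLC hq)).symm) e1)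
  · push Not at hbar
    obtain ⟨r, hrC, hr⟩ := hbar
    have hr0 : 0 < r.1.1 := lt_of_le_of_ne r.2.1 (Ne.symm hr)
    have hcn : IsConnected ((fun p : X => p.1.1) '' C) := hC'.image _ cont_fst.continuousOn
    obtain ⟨pa, hpa, hpa'⟩ := hC.exists_isMinOn hC'.nonempty cont_fst.continuousOn
    obtain ⟨pb, hpb, hpb'⟩ := hC.exists_isMaxOn hC'.nonempty cont_fst.continuousOn
    have hmin : ∀ q ∈ C, pa.1.1 ≤ q.1.1 := fun q hq => hpa' hq
    have hmax : ∀ q ∈ C, q.1.1 ≤ pb.1.1 := fun q hq => hpb' hq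
    rcases (hmin pb hpb).lt_or_eq with hlt | heq
    · have hDC : {p : X | pa.1.1 < p.1.1 ∧ p.1.1 < pb.1.1} ⊆ C := by
        rintro p ⟨h1, h2⟩
        obtain ⟨q, hq, hqe⟩ := hcn.isPreconnected.Icc_subset (mem_image_of_mem _ hpa)
          (mem_image_of_mem _ hpb) (show p.1.1 ∈ Icc pa.1.1 pb.1.1 from ⟨h1.le, h2.le⟩)
        have : p = q := ext_pos hqe.symm (pa.2.1.trans_lt h1)
        exact this ▸ hq
      have hconn : IsPreconnected {p : X | pa.1.1 < p.1.1 ∧ p.1.1 < pb.1.1} :=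
        preconn_band pa.2.1 pb.2.2.1
      refine hconn.subset_closure (fun p hp => ?_)
        (fun p hp => mem_closure_band pa.2.1 pb.2.2.1 hlt (hmin p hp.1) (hmax p hp.1))
      have hV : IsOpen {p : X | pa.1.1 < p.1.1 ∧ p.1.1 < pb.1.1} :=
        (isOpen_lt continuous_const cont_fst).inter (isOpen_lt cont_fst continuous_const)
      have hVC : {p : X | pa.1.1 < p.1.1 ∧ p.1.1 < pb.1.1} ∩ C =
          {p : X | pa.1.1 < p.1.1 ∧ p.1.1 < pb.1.1} := inter_eq_left.2 hDC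
      have hp1 : 0 < p.1.1 := pa.2.1.trans_lt hp.1
      have key : ∀ t, pa.1.1 < t → t < pb.1.1 → ∃ q ∈ {p : X | pa.1.1 < p.1.1 ∧ p.1.1 < pb.1.1} ∩ C,
          q.1.1 = t := by
        intro t h1 h2
        rw [hVC]
        exact ⟨⟨g t, g_mem (pa.2.1.trans_lt h1) (h2.le.trans pb.2.2.1)⟩, ⟨h1, h2⟩, rfl⟩
      refine ⟨hDC hp, local_sep cont_fst hV hp (hDC hp) (by rw [hVC]; exact hconn) ?_ ?_ ?_⟩
      · rintro q - hqe
        exact (ext_pos hqe.symm hp1).symm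
      · obtain ⟨t, ht1, ht2⟩ := exists_between hp.1
        obtain ⟨q, hq, hqe⟩ := key t ht1 (ht2.trans hp.2)
        exact ⟨q, hq, by rw [hqe]; exact ht2⟩
      · obtain ⟨t, ht1, ht2⟩ := exists_between hp.2
        obtain ⟨q, hq, hqe⟩ := key t (hp.1.trans ht1) ht2
        exact ⟨q, hq, by rw [hqe]; exact ht1⟩
    · refine Set.Subsingleton.isPreconnected (fun p hp q hq => ?_)
      have h1 := hmin p (hLC hp)
      have h2 := hmin q (hLC hq)
      have h3 := hmax p (hLC hp)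
      have h4 := hmax q (hLC hq)
      have h5 := hmin r hrC
      have h6 := hmax r hrC
      exact ext_pos (by linarith) (by linarith)

lemma connected_X : IsPreconnected (univ : Set X) :=
  (preconn_band le_rfl le_rfl).subset_closure (subset_univ _)
    (fun p _ => mem_closure_band le_rfl le_rfl zero_lt_one p.2.1 p.2.2.1)

instance : CompactSpace X := isCompact_iff_compactSpace.1 isCompact_X0

instance : ConnectedSpace X where
  isPreconnected_univ := connected_X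
  toNonempty := ⟨⟨g 1, g_mem zero_lt_one le_rfl⟩⟩

/-- the bottom point of the bar cannot be joined to the point of the graph over `1` -/
lemma no_path (f : unitInterval → X) (hf : Continuous f) (h0 : (f 0).1.1 = 0)
    (h1 : (f 1).1.1 = 1) : False := by
  have hcont : Continuous fun t => (f t).1.1 := cont_fst.comp hf
  have hcont2 : Continuous fun t => (f t).1.2 := cont_snd.comp hf
  -- the last time on the bar
  have hK : IsCompact {t : unitInterval | (f t).1.1 = 0} :=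
    (isClosed_eq hcont continuous_const).isCompact
  obtain ⟨t0, ht0, hmax⟩ := hK.exists_isMaxOn ⟨0, h0⟩
    (continuous_subtype_val (p := fun x : ℝ => x ∈ unitInterval)).continuousOn
  have hmax' : ∀ t : unitInterval, (f t).1.1 = 0 → t ≤ t0 := fun t ht => hmax ht
  have ht0' : (f t0).1.1 = 0 := ht0
  have hlt1 : t0 < 1 := by
    refine lt_of_le_of_ne unitInterval.le_one' (fun h => ?_)
    rw [h, h1] at ht0'
    exact one_ne_zero ht0'
  obtain ⟨δ, hδ, hδ'⟩ := Metric.continuousAt_iff.1 (hcont2.continuousAt (x := t0)) 1 one_pos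
  obtain ⟨t1, ht1, ht1d⟩ : ∃ t1 : unitInterval, t0 < t1 ∧ ∀ t, t0 ≤ t → t ≤ t1 → dist t t0 < δ := by
    have hlt : (t0 : ℝ) < min 1 ((t0 : ℝ) + δ) :=
      lt_min hlt1 (by linarith)
    obtain ⟨s, hs1, hs2⟩ := exists_between hlt
    refine ⟨⟨s, t0.2.1.trans hs1.le, (hs2.le.trans (min_le_left _ _))⟩, hs1, ?_⟩
    intro t h2 h3
    have h2' : (t0 : ℝ) ≤ t := h2
    have h3' : (t : ℝ) ≤ s := h3
    rw [Subtype.dist_eq, Real.dist_eq, abs_of_nonneg (by linarith)]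
    have := hs2.trans_le (min_le_right _ _)
    linarith
  have hpos : 0 < (f t1).1.1 := by
    refine lt_of_le_of_ne (f t1).2.1 (fun h => ?_)
    exact absurd (hmax' t1 h.symm) (not_le.2 ht1)
  have himg : Icc 0 ((f t1).1.1) ⊆ (fun t => (f t).1.1) '' Icc t0 t1 :=
    (isPreconnected_Icc.image _ hcont.continuousOn).Icc_subset
      (show (0 : ℝ) ∈ (fun t => (f t).1.1) '' Icc t0 t1 from ⟨t0, ⟨le_rfl, ht1.le⟩, ht0'⟩)
      (show (f t1).1.1 ∈ (fun t => (f t).1.1) '' Icc t0 t1 from ⟨t1, ⟨ht1.le, le_rfl⟩, rfl⟩)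
  have key : ∀ y : ℝ, -1 ≤ y → y ≤ 1 → ∃ t, dist t t0 < δ ∧ (f t).1.2 = y := by
    intro y hy hy'
    obtain ⟨x, hx0, hxa, hx⟩ := exists_small hy hy' hpos
    obtain ⟨t, ht, hte⟩ := himg ⟨hx0.le, hxa.le⟩
    refine ⟨t, ht1d t ht.1 ht.2, ?_⟩
    rcases (f t).2.2.2.2.2 with h | h
    · exact absurd (hte.symm.trans h) hx0.ne'
    · rw [h, ← hx]
      exact congrArg (fun z : ℝ => Real.sin z⁻¹) hte
  obtain ⟨s1, hs1, he1⟩ := key 1 (by norm_num) le_rfl
  obtain ⟨s2, hs2, he2⟩ := key (-1) le_rfl (by norm_num)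
  have a1 := hδ' hs1
  have a2 := hδ' hs2
  simp only [he1, he2, Real.dist_eq] at a1 a2
  have b1 := abs_lt.1 a1
  have b2 := abs_lt.1 a2
  linarith [b1.1, b1.2, b2.1, b2.2]

/-- The negation of the preceding statement: If X is a continuum in which every subcontinuum C has a connected set of local separating points, then any two distinct points of any connected subset of X are joined by an arc lying inside that subset. -/
theorem result :
    ¬ (∀ (X : Type) [MetricSpace X] [CompactSpace X] [ConnectedSpace X],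
      (∀ C : Set X, IsCompact C → IsConnected C →
        IsPreconnected {p : X | p ∈ C ∧ ∃ V : Set X, IsOpen V ∧ p ∈ V ∧
          ¬ IsPreconnected (connectedComponentIn (V ∩ C) p \ {p})}) →
      ∀ A : Set X, IsConnected A → ∀ x ∈ A, ∀ y ∈ A, x ≠ y →
        ∃ f : unitInterval → X, Continuous f ∧ Function.Injective f ∧
          f 0 = x ∧ f 1 = y ∧ Set.range f ⊆ A) := by
  intro H
  obtain ⟨f, hf, -, h0, h1, -⟩ := H X sep_conn univ isConnected_univ
    ⟨((0:ℝ), (0:ℝ)), ⟨le_rfl, zero_le_one, by norm_num, by norm_num, Or.inl rfl⟩⟩ (mem_univ _)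
    ⟨g 1, g_mem zero_lt_one le_rfl⟩ (mem_univ _)
    (fun h => by
      have := congrArg (fun p : X => p.1.1) h
      exact zero_ne_one this)
  exact no_path f hf (by rw [h0]) (by rw [h1]; rfl)

end Pool.Agent.S13772
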