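import Pool.Statements.S15144
import Pool.Agent.V5helper69.IA.Final
-- import your own Pool.Agent.* helpers here

set_option autoImplicit false
open Pool Pool.MP_a2ec29_lc

namespace Pool.Agent.S15144

/-- The negation of the preceding statement: Take any computable infinite linear order L and computable Boolean algebra B isomorphic to the algebra of finite unions of half-open intervals of L. Then some computable copy of L makes B computably isomorphic to that copy's interval algebra. -/
theorem result :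
    ¬ (∀ (β : Type) [LinearOrder β] (l : ℕ ≃ β),
      ComputablePred (fun p : ℕ × ℕ => l p.1 ≤ l p.2) →
      ∀ (α : Type) [BooleanAlgebra α] (e : ℕ ≃ α),
        Computable₂ (fun m n : ℕ => e.symm (e m ⊔ e n)) →
        Computable₂ (fun m n : ℕ => e.symm (e m ⊓ e n)) →
        Computable (fun n : ℕ => e.symm (e n)ᶜ) →
        (∃ φ : α → Set β, Function.Injective φ ∧
            (∀ a b, φ (a ⊔ b) = φ a ∪ φ b) ∧
            (∀ a, φ aᶜ = (φ a)ᶜ) ∧
            Set.range φ = {X : Set β | ∃ S : Finset β, ∃ b : Bool,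
              X = {x : β | Xor' (b = true) (Odd (S.filter (fun s => s ≤ x)).card)}}) →
        ∃ l' : ℕ ≃ β, ComputablePred (fun p : ℕ × ℕ => l' p.1 ≤ l' p.2) ∧
          ∃ ψ : α → Set β, Function.Injective ψ ∧
            (∀ a b, ψ (a ⊔ b) = ψ a ∪ ψ b) ∧
            (∀ a, ψ aᶜ = (ψ a)ᶜ) ∧
            Set.range ψ = {X : Set β | ∃ S : Finset β, ∃ b : Bool,
              X = {x : β | Xor' (b = true) (Odd (S.filter (fun s => s ≤ x)).card)}} ∧
            ∃ c : ℕ → List ℕ × Bool, Computable c ∧
              ∀ n : ℕ, ψ (e n) = {x : β | Xor' ((c n).2 = true)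
                (Odd ((c n).1.filter (fun s => decide (l' s ≤ x))).length)}) := by
  intro H
  have h1 : ComputablePred (fun p : ℕ × ℕ => (Equiv.refl ℕ) p.1 ≤ (Equiv.refl ℕ) p.2) := by
    have h2 : PrimrecPred fun p : ℕ × ℕ => p.1 ≤ p.2 :=
      Primrec.nat_le.comp Primrec.fst Primrec.snd
    obtain ⟨D, hD⟩ := h2
    exact ⟨fun p => D p, hD.to_comp⟩
  obtain ⟨l', _, ψ, hinj, hsup, _, hran, c, hc, hψ⟩ := H ℕ (Equiv.refl ℕ) h1
    Pool.Agent.V5helper69.IA.FC Pool.Agent.V5helper69.IA.e
    Pool.Agent.V5helper69.IA.sup_computable Pool.Agent.V5helper69.IA.inf_computable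
    Pool.Agent.V5helper69.IA.compl_computable
    ⟨fun a => (a : Set ℕ), Subtype.val_injective, fun a b => rfl, fun a => rfl, by
      ext X
      constructor
      · rintro ⟨a, rfl⟩
        exact Pool.Agent.V5helper69.IA.mem_Std.2 a.2
      · intro hX
        exact ⟨⟨X, Pool.Agent.V5helper69.IA.mem_Std.1 hX⟩, rfl⟩⟩
  exact Pool.Agent.V5helper69.IA.no_copy l' ψ hinj hsup hran c hc hψ

end Pool.Agent.S15144
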