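import Pool.Statements.S19353
import Pool.Agent.Results.MP_5fc11c_pr.KacConstant

set_option autoImplicit false
open MeasureTheory Filter Topology
open Pool Pool.MP_5fc11c_pr

namespace Pool.Agent.S19353

open Pool.Agent.Results.MP_5fc11c_pr.KacConstant in
theorem expected_eq (μ : Measure ℝ) [IsProbabilityMeasure μ] (n : ℕ) :
    expectedRoots μ n =
      (∫⁻ c : Fin (n + 1) → ℝ,
        (((∑ k : Fin (n + 1), Polynomial.C (c k) * Polynomial.X ^ (k : ℕ)).roots.toFinset.card : ℕ) :
          ENNReal) ∂(Measure.pi fun _ : Fin (n + 1) => μ)).toReal := by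
  classical
  set g : (Fin (n + 1) → ℝ) → ℕ := fun c =>
    (∑ k : Fin (n + 1), Polynomial.C (c k) * Polynomial.X ^ (k : ℕ)).roots.toFinset.card with hg
  set res : (ℕ → ℝ) → (Fin (n + 1) → ℝ) := fun ξ k => ξ k with hres
  set ext : (Fin (n + 1) → ℝ) → (ℕ → ℝ) := fun c k => if h : k < n + 1 then c ⟨k, h⟩ else 0 with hext
  have hresm : Measurable res := by
    rw [hres]
    exact measurable_pi_lambda _ fun k => measurable_pi_apply _
  have hextm : Measurable ext := by
    rw [hext]
    refine measurable_pi_lambda _ fun k => ?_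
    by_cases h : k < n + 1
    · simp only [h, dif_pos]
      exact measurable_pi_apply _
    · simp only [h, dif_neg, not_false_eq_true]
      exact measurable_const
  have hpoly : ∀ ξ : ℕ → ℝ, numRealRoots (kacPoly n ξ) = g (res ξ) := by
    intro ξ
    simp only [numRealRoots, kacPoly, hg, hres]
    rw [Finset.sum_range]
  have hre : ∀ c, res (ext c) = c := by
    intro c
    funext k
    simp only [hres, hext, k.2, dif_pos]
  have hgm : Measurable g := by
    have h1 : Measurable (fun ω : ℕ → ℝ => Kac764.nz (Kac764.kac n ω) Set.univ) :=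
      Kac764.H4.measurable_nz_set n Set.univ (Or.inl rfl)
    have h2 : g = (fun ω : ℕ → ℝ => Kac764.nz (Kac764.kac n ω) Set.univ) ∘ ext := by
      funext c
      simp only [Function.comp]
      rw [← kacPoly_eq, ← numRealRoots_eq, hpoly, hre]
    rw [h2]
    exact h1.comp hextm
  have hmap : Measure.map res (Measure.infinitePi (fun _ : ℕ => μ)) =
      Measure.pi (fun _ : Fin (n + 1) => μ) := by
    symm
    refine Measure.pi_eq fun s hs => ?_
    rw [Measure.map_apply hresm (MeasurableSet.univ_pi hs)]
    set t : ℕ → Set ℝ := fun k => if h : k < n + 1 then s ⟨k, h⟩ else Set.univ with ht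
    have htm : ∀ i ∈ Finset.range (n + 1), MeasurableSet (t i) := by
      intro i hi
      rw [Finset.mem_range] at hi
      simp only [ht, hi, dif_pos]
      exact hs _
    have hpre : res ⁻¹' (Set.univ.pi s) = Set.pi (Finset.range (n + 1) : Set ℕ) t := by
      ext ξ
      simp only [Set.mem_preimage, Set.mem_pi, Set.mem_univ, forall_true_left, hres,
        Finset.coe_range, Set.mem_Iio, ht]
      constructor
      · intro h i hi
        simp only [hi, dif_pos]
        exact h ⟨i, hi⟩
      · intro h i
        have := h i i.2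
        simpa only [i.2, dif_pos] using this
    rw [hpre, Measure.infinitePi_pi (fun _ : ℕ => μ) htm, Finset.prod_range]
    refine Finset.prod_congr rfl fun i _ => ?_
    simp only [ht, i.2, dif_pos]
  have hgR : Measurable (fun c => (g c : ℝ)) := measurable_from_top.comp hgm
  unfold expectedRoots iidLaw
  simp only [hpoly]
  rw [← hmap]
  have e1 : ∫ ξ, (g (res ξ) : ℝ) ∂(Measure.infinitePi (fun _ : ℕ => μ)) =
      ∫ c, (g c : ℝ) ∂(Measure.map res (Measure.infinitePi (fun _ : ℕ => μ))) := by
    rw [integral_map hresm.aemeasurable hgR.aestronglyMeasurable]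
  rw [e1, integral_eq_lintegral_of_nonneg_ae (Eventually.of_forall fun c => Nat.cast_nonneg _)
    hgR.aestronglyMeasurable]
  congr 1
  refine lintegral_congr fun c => ?_
  rw [ENNReal.ofReal_natCast]

/-- For every real law with mean 0 and variance 1, the expected number of distinct real roots of the degree-n polynomial with i.i.d. coefficients of that law, minus (2/π) log n, converges to a finite real limit. -/
theorem result :
    ∀ (μ : Measure ℝ) [IsProbabilityMeasure μ],
      Integrable (fun x : ℝ => x ^ 2) μ →
      ∫ x, x ∂μ = 0 →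
      ∫ x, x ^ 2 ∂μ = 1 →
      ∃ C : ℝ, Tendsto
        (fun n : ℕ =>
          (∫⁻ c : Fin (n + 1) → ℝ,
              (((∑ k : Fin (n + 1), Polynomial.C (c k) * Polynomial.X ^ (k : ℕ)).roots.toFinset.card : ℕ) : ENNReal)
              ∂(Measure.pi fun _ : Fin (n + 1) => μ)).toReal
            - 2 / Real.pi * Real.log (n : ℝ))
        atTop (𝓝 C) := by
  intro μ _ hint hmean hvar
  obtain ⟨-, -, -, L, -, hL⟩ :=
    Pool.Agent.Results.MP_5fc11c_pr.KacConstant.result μ hint hmean hvar
  refine ⟨_, hL.congr fun n => ?_⟩
  rw [expected_eq]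

end Pool.Agent.S19353
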